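import Pool.Agent.H63.TC.Stmts

/-!
# Project TC: holomorphic functions of several variables (CAU, LIH, second derivatives)
-/

open Complex Metric Set Filter Topology

namespace Pool.Agent.H63.TC

section General

variable {E F : Type*} [NormedAddCommGroup E] [NormedSpace ℂ E] [NormedAddCommGroup F]
  [NormedSpace ℂ F]

/-- Cauchy estimate for the Frechet derivative -/
lemma osg_norm_fderiv_le {f : E → F} {q : E} {r M : ℝ} (hr : 0 < r)
    (hf : DifferentiableOn ℂ f (ball q r)) (hM : ∀ m ∈ ball q r, ‖f m‖ ≤ M) :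
    ‖fderiv ℂ f q‖ ≤ 2 * M / r := by
  refine Complex.norm_fderiv_le_div_of_mapsTo_ball hf ?_ hr
  intro m hm
  rw [mem_closedBall, dist_eq_norm]
  calc ‖f m - f q‖ ≤ ‖f m‖ + ‖f q‖ := norm_sub_le _ _
    _ ≤ M + M := add_le_add (hM m hm) (hM q (mem_ball_self hr))
    _ = 2 * M := by ring

/-- one variable difference quotients converge with a rate -/
lemma osg_quot [CompleteSpace F] {g : ℂ → F} {ρ M : ℝ} (hρ : 0 < ρ)
    (hg : DifferentiableOn ℂ g (ball 0 ρ))
    (hM : ∀ z ∈ ball (0 : ℂ) ρ, ‖g z‖ ≤ M) {h : ℂ} (hh : h ≠ 0) (hhρ : ‖h‖ < ρ) :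
    ‖h⁻¹ • (g h - g 0) - deriv g 0‖ ≤ 4 * M / ρ ^ 2 * ‖h‖ := by
  have hb : ball (0 : ℂ) ρ ∈ 𝓝 (0 : ℂ) := ball_mem_nhds _ hρ
  have hmem : h ∈ ball (0 : ℂ) ρ := by simpa using hhρ
  have h1 : ∀ z ∈ ball (0 : ℂ) ρ, ‖dslope g 0 z‖ ≤ 2 * M / ρ := by
    intro z hz
    refine Complex.norm_dslope_le_div_of_mapsTo_ball hg ?_ hz
    intro m hm
    rw [mem_closedBall, dist_eq_norm]
    calc ‖g m - g 0‖ ≤ ‖g m‖ + ‖g 0‖ := norm_sub_le _ _
      _ ≤ M + M := add_le_add (hM m hm) (hM 0 (mem_ball_self hρ))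
      _ = 2 * M := by ring
  have h2 : DifferentiableOn ℂ (dslope g 0) (ball 0 ρ) :=
    (Complex.differentiableOn_dslope hb).2 hg
  have h3 : dist (dslope g 0 h) (dslope g 0 0) ≤ (2 * (2 * M / ρ)) / ρ * dist h 0 := by
    refine Complex.dist_le_div_mul_dist_of_mapsTo_ball h2 ?_ hmem
    intro m hm
    rw [mem_closedBall, dist_eq_norm]
    calc ‖dslope g 0 m - dslope g 0 0‖ ≤ ‖dslope g 0 m‖ + ‖dslope g 0 0‖ := norm_sub_le _ _
      _ ≤ 2 * M / ρ + 2 * M / ρ := add_le_add (h1 m hm) (h1 0 (mem_ball_self hρ))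
      _ = 2 * (2 * M / ρ) := by ring
  rw [dslope_same, dslope_of_ne _ hh, slope_def_module, dist_eq_norm, dist_zero_right,
    sub_zero] at h3
  calc _ ≤ _ := h3
    _ = 4 * M / ρ ^ 2 * ‖h‖ := by field_simp; ring

/-- locally uniform limits of holomorphic functions -/
theorem osg_limit [CompleteSpace F] [ProperSpace E] {ι : Type*} {l : Filter ι} [l.NeBot]
    {f : ι → E → F} {g : E → F} {U : Set E} (hU : IsOpen U)
    (hf : ∀ᶠ i in l, DifferentiableOn ℂ (f i) U) (hlim : TendstoLocallyUniformlyOn f g l U) :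
    DifferentiableOn ℂ g U := by
  intro x hx
  refine DifferentiableAt.differentiableWithinAt ?_
  obtain ⟨r, hr, hrU⟩ := Metric.nhds_basis_closedBall.mem_iff.1 (hU.mem_nhds hx)
  have hunif : TendstoUniformlyOn f g l (closedBall x r) :=
    (tendstoLocallyUniformlyOn_iff_forall_isCompact hU).1 hlim _ hrU (isCompact_closedBall x r)
  have hr2 : 0 < r / 2 := by linarith
  have hsub : ∀ y ∈ ball x (r / 2), ball y (r / 2) ⊆ closedBall x r := by
    intro y hy z hz
    rw [mem_ball] at hy hz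
    rw [mem_closedBall]
    linarith [dist_triangle z y x]
  -- the derivatives are uniformly Cauchy
  have hC : UniformCauchySeqOn (fun i => fderiv ℂ (f i)) l (ball x (r / 2)) := by
    intro u hu
    obtain ⟨ε, hε, hεu⟩ := Metric.mem_uniformity_dist.1 hu
    have h1 : ∀ᶠ i in l, ∀ y ∈ closedBall x r, dist (g y) (f i y) < ε * r / 16 :=
      Metric.tendstoUniformlyOn_iff.1 hunif _ (by positivity)
    have h2 := h1.and hf
    have h3 : ∀ᶠ m : ι × ι in l ×ˢ l, ((∀ y ∈ closedBall x r, dist (g y) (f m.1 y) < ε * r / 16) ∧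
        DifferentiableOn ℂ (f m.1) U) ∧ ((∀ y ∈ closedBall x r, dist (g y) (f m.2 y) < ε * r / 16) ∧
        DifferentiableOn ℂ (f m.2) U) := h2.prod_mk h2
    filter_upwards [h3] with m hm y hy
    obtain ⟨⟨a1, a2⟩, b1, b2⟩ := hm
    apply hεu
    have hyU : y ∈ U := hrU (hsub y hy (mem_ball_self hr2))
    have hd1 : DifferentiableAt ℂ (f m.1) y := a2.differentiableAt (hU.mem_nhds hyU)
    have hd2 : DifferentiableAt ℂ (f m.2) y := b2.differentiableAt (hU.mem_nhds hyU)
    rw [dist_eq_norm]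
    have h4 : fderiv ℂ (f m.1) y - fderiv ℂ (f m.2) y = fderiv ℂ (f m.1 - f m.2) y := by
      rw [fderiv_sub hd1 hd2]
    rw [h4]
    have h5 : ‖fderiv ℂ (f m.1 - f m.2) y‖ ≤ 2 * (ε * r / 8) / (r / 2) := by
      refine osg_norm_fderiv_le hr2 ?_ ?_
      · exact ((a2.sub b2).mono ((hsub y hy).trans hrU))
      · intro z hz
        have c1 := a1 z (hsub y hy hz)
        have c2 := b1 z (hsub y hy hz)
        have : dist (f m.1 z) (f m.2 z) ≤ dist (g z) (f m.1 z) + dist (g z) (f m.2 z) := by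
          rw [dist_comm (g z) (f m.1 z)]; exact dist_triangle _ _ _
        rw [Pi.sub_apply, ← dist_eq_norm]
        linarith
    have h6 : 2 * (ε * r / 8) / (r / 2) = ε / 2 := by field_simp; ring
    rw [h6] at h5
    linarith
  have hex : ∀ y ∈ ball x (r / 2), ∃ L : E →L[ℂ] F, Tendsto (fun i => fderiv ℂ (f i) y) l (𝓝 L) := by
    intro y hy
    have : Cauchy (l.map (fun i => fderiv ℂ (f i) y)) := by
      rw [cauchy_map_iff]
      refine ⟨inferInstance, ?_⟩
      intro u hu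
      exact (hC u hu).mono (fun m hm => hm y hy)
    exact CompleteSpace.complete this
  choose! L hL using hex
  have hun : TendstoUniformlyOn (fun i => fderiv ℂ (f i)) L l (ball x (r / 2)) :=
    hC.tendstoUniformlyOn_of_tendsto hL
  have hxb : ball x (r / 2) ∈ 𝓝 x := ball_mem_nhds _ hr2
  refine (hasFDerivAt_of_tendstoUniformlyOnFilter (𝕜 := ℂ) (l := l) (f := f)
    (f' := fun i => fderiv ℂ (f i)) (g := g) (g' := L) (x := x) ?_ ?_ ?_).differentiableAt
  · exact (tendstoUniformlyOn_iff_tendstoUniformlyOnFilter.1 hun).mono_right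
      (Filter.le_principal_iff.2 hxb)
  · have h1 : ∀ᶠ y in 𝓝 x, y ∈ U := hU.mem_nhds hx
    filter_upwards [hf.prod_mk h1] with m hm
    exact (hm.1.differentiableAt (hU.mem_nhds hm.2)).hasFDerivAt
  · filter_upwards [hxb] with y hy
    refine hunif.tendsto_at (hsub x (mem_ball_self hr2) hy)

/-- directional derivatives of a holomorphic function are holomorphic -/
theorem osg_fderiv_apply [CompleteSpace F] [ProperSpace E] {f : E → F} {U : Set E}
    (hU : IsOpen U) (hf : DifferentiableOn ℂ f U) (v : E) :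
    DifferentiableOn ℂ (fun q => fderiv ℂ f q v) U := by
  intro q₀ hq₀
  refine DifferentiableAt.differentiableWithinAt ?_
  have hcont : ContinuousAt f q₀ := (hf.differentiableAt (hU.mem_nhds hq₀)).continuousAt
  have hb : ∀ᶠ q in 𝓝 q₀, ‖f q‖ ≤ ‖f q₀‖ + 1 ∧ q ∈ U := by
    have h1 : ∀ᶠ q in 𝓝 q₀, ‖f q‖ < ‖f q₀‖ + 1 :=
      hcont.norm.eventually_lt_const (by linarith)
    filter_upwards [h1, hU.mem_nhds hq₀] with q a b
    exact ⟨a.le, b⟩
  obtain ⟨R, hR, hRb⟩ := Metric.eventually_nhds_iff_ball.1 hb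
  set M := ‖f q₀‖ + 1 with hMdef
  have hM0 : 0 < M := by positivity
  set r := R / 2 with hr
  have hr0 : 0 < r := by positivity
  set δ := r / (‖v‖ + 1) with hδ
  have hδ0 : 0 < δ := by positivity
  have hδv : δ * ‖v‖ < r := by
    rw [hδ, div_mul_eq_mul_div, div_lt_iff₀ (by positivity)]
    nlinarith [norm_nonneg v]
  have hin : ∀ q ∈ ball q₀ r, ∀ h : ℂ, ‖h‖ < δ → q + h • v ∈ ball q₀ R := by
    intro q hq h hh
    rw [mem_ball, dist_eq_norm] at hq ⊢
    have h1 : q + h • v - q₀ = (q - q₀) + h • v := by abel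
    rw [h1]
    have h2 : ‖h • v‖ < r := by
      rw [norm_smul]
      calc ‖h‖ * ‖v‖ ≤ δ * ‖v‖ := mul_le_mul_of_nonneg_right hh.le (norm_nonneg _)
        _ < r := hδv
    calc ‖(q - q₀) + h • v‖ ≤ ‖q - q₀‖ + ‖h • v‖ := norm_add_le _ _
      _ < R := by rw [hr] at *; linarith
  have hquot : ∀ q ∈ ball q₀ r, ∀ h : ℂ, h ≠ 0 → ‖h‖ < δ →
      ‖h⁻¹ • (f (q + h • v) - f q) - fderiv ℂ f q v‖ ≤ 4 * M / δ ^ 2 * ‖h‖ := by
    intro q hq h hh hhδ
    have hd : ∀ z ∈ ball (0 : ℂ) δ, DifferentiableAt ℂ (fun z : ℂ => f (q + z • v)) z := by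
      intro z hz
      have hz' : ‖z‖ < δ := by simpa using hz
      have h1 := (hRb _ (hin q hq z hz')).2
      have h2 : DifferentiableAt ℂ f (q + z • v) := hf.differentiableAt (hU.mem_nhds h1)
      have h3 : DifferentiableAt ℂ (fun z : ℂ => q + z • v) z := by fun_prop
      exact DifferentiableAt.comp (g := f) (f := fun z : ℂ => q + z • v) z h2 h3
    have h1 := osg_quot (g := fun z : ℂ => f (q + z • v)) hδ0
      (fun z hz => (hd z hz).differentiableWithinAt) (M := M) ?_ hh hhδ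
    · have h2 : deriv (fun z : ℂ => f (q + z • v)) 0 = fderiv ℂ f q v := by
        have hqU : q ∈ U := by
          have := (hRb _ (hin q hq 0 (by simpa using hδ0))).2
          simpa using this
        have h3 : HasFDerivAt f (fderiv ℂ f q) (q + (0 : ℂ) • v) := by
          rw [zero_smul, add_zero]
          exact (hf.differentiableAt (hU.mem_nhds hqU)).hasFDerivAt
        have h4 : HasDerivAt (fun z : ℂ => q + z • v) v 0 := by
          have := ((hasDerivAt_id (0 : ℂ)).smul_const v).const_add q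
          simpa using this
        exact (h3.comp_hasDerivAt (0 : ℂ) h4).deriv
      rw [h2] at h1
      simpa using h1
    · intro z hz
      exact (hRb _ (hin q hq z (by simpa using hz))).1
  -- the sequence of quotients
  have hG : TendstoUniformlyOn (fun (n : ℕ) (q : E) =>
      ((δ / (n + 2) : ℝ) : ℂ)⁻¹ • (f (q + ((δ / (n + 2) : ℝ) : ℂ) • v) - f q))
      (fun q => fderiv ℂ f q v) atTop (ball q₀ r) := by
    rw [Metric.tendstoUniformlyOn_iff]
    intro ε hε
    have h1 : Tendsto (fun n : ℕ => 4 * M / δ ^ 2 * (δ / ((n : ℝ) + 2))) atTop (𝓝 0) := by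
      have h2 : Tendsto (fun n : ℕ => (n : ℝ) + 2) atTop atTop :=
        tendsto_atTop_add_const_right _ _ tendsto_natCast_atTop_atTop
      have h3 : Tendsto (fun n : ℕ => δ / ((n : ℝ) + 2)) atTop (𝓝 0) :=
        tendsto_const_nhds.div_atTop h2
      simpa using h3.const_mul (4 * M / δ ^ 2)
    filter_upwards [h1.eventually_lt_const hε] with n hn q hq
    have hn0 : (0 : ℝ) < (n : ℝ) + 2 := by positivity
    have hpos : 0 < δ / ((n : ℝ) + 2) := by positivity
    have hnorm : ‖((δ / (n + 2) : ℝ) : ℂ)‖ = δ / (n + 2) := by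
      rw [Complex.norm_real, Real.norm_eq_abs, abs_of_pos hpos]
    have h2 := hquot q hq ((δ / (n + 2) : ℝ) : ℂ) (by
      rw [Ne, Complex.ofReal_eq_zero]; exact hpos.ne') (by
      rw [hnorm, div_lt_iff₀ hn0]
      nlinarith [(Nat.cast_nonneg n : (0 : ℝ) ≤ n)])
    rw [hnorm] at h2
    rw [dist_comm, dist_eq_norm]
    exact h2.trans_lt hn
  have hdiff : ∀ n : ℕ, DifferentiableOn ℂ (fun (q : E) =>
      ((δ / (n + 2) : ℝ) : ℂ)⁻¹ • (f (q + ((δ / (n + 2) : ℝ) : ℂ) • v) - f q)) (ball q₀ r) := by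
    intro n q hq
    have hn0 : (0 : ℝ) < (n : ℝ) + 2 := by positivity
    have hpos : 0 < δ / ((n : ℝ) + 2) := by positivity
    have hlt : ‖((δ / (n + 2) : ℝ) : ℂ)‖ < δ := by
      rw [Complex.norm_real, Real.norm_eq_abs, abs_of_pos hpos, div_lt_iff₀ hn0]
      nlinarith [(Nat.cast_nonneg n : (0 : ℝ) ≤ n)]
    have h1 := (hRb _ (hin q hq _ hlt)).2
    have h2 : q ∈ U := by
      have := (hRb _ (hin q hq 0 (by simpa using hδ0))).2
      simpa using this
    have h3 : DifferentiableAt ℂ f (q + ((δ / (n + 2) : ℝ) : ℂ) • v) :=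
      hf.differentiableAt (hU.mem_nhds h1)
    have h4 : DifferentiableAt ℂ f q := hf.differentiableAt (hU.mem_nhds h2)
    have h5 : DifferentiableAt ℂ (fun q : E => q + ((δ / (n + 2) : ℝ) : ℂ) • v) q := by fun_prop
    have h6 : DifferentiableAt ℂ (fun q : E => f (q + ((δ / (n + 2) : ℝ) : ℂ) • v)) q :=
      DifferentiableAt.comp (g := f) (f := fun q : E => q + ((δ / (n + 2) : ℝ) : ℂ) • v) q h3 h5
    exact ((h6.sub h4).const_smul _).differentiableWithinAt
  have := osg_limit isOpen_ball (Eventually.of_forall hdiff) hG.tendstoLocallyUniformlyOn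
  exact this.differentiableAt (ball_mem_nhds _ hr0)

end General

/-- CAU -/
theorem cau : CauStmt := by
  intro F _ _ _ f m R M hR hf hM m₁ h₁ m₂ h₂
  have hR2 : 0 < R / 2 := by linarith
  have hsub : ∀ y ∈ ball m (R / 2), ball y (R / 2) ⊆ ball m R := by
    intro y hy z hz
    rw [mem_ball] at hy hz ⊢
    linarith [dist_triangle z y m]
  have h1 : ∀ y ∈ ball m (R / 2), ‖fderiv ℂ f y‖ ≤ 8 * M / R := by
    intro y hy
    have hM0 : 0 ≤ M := (norm_nonneg _).trans (hM m (mem_ball_self hR))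
    have := osg_norm_fderiv_le hR2 (hf.mono (hsub y hy)) (fun z hz => hM z (hsub y hy hz))
    refine this.trans ?_
    rw [div_le_div_iff₀ hR2 hR]
    nlinarith
  have h2 : ∀ y ∈ ball m (R / 2), DifferentiableAt ℂ f y := fun y hy =>
    hf.differentiableAt (isOpen_ball.mem_nhds (hsub y hy (mem_ball_self hR2)))
  exact (convex_ball m (R / 2)).norm_image_sub_le_of_norm_fderiv_le h2 h1 h₂ h₁

/-- LIH -/
theorem lih : LihStmt := by
  intro F _ _ _ ι l f g U hl hU hf hlim
  exact osg_limit hU hf hlim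

/-! ### Two variables: partial derivatives -/

variable {F : Type*} [NormedAddCommGroup F] [NormedSpace ℂ F]

/-- the partial derivatives are the values of the Frechet derivative -/
lemma osg_partial_fst {f : ℂ × ℂ → F} {q : ℂ × ℂ} (hf : DifferentiableAt ℂ f q) :
    HasDerivAt (fun t => f (t, q.2)) (fderiv ℂ f q (1, 0)) q.1 := by
  have h1 : HasFDerivAt f (fderiv ℂ f q) (q.1, q.2) := hf.hasFDerivAt
  have h2 : HasDerivAt (fun t : ℂ => (t, q.2)) ((1 : ℂ), (0 : ℂ)) q.1 :=
    (hasDerivAt_id q.1).prodMk (hasDerivAt_const q.1 q.2)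
  exact h1.comp_hasDerivAt q.1 h2

lemma osg_partial_snd {f : ℂ × ℂ → F} {q : ℂ × ℂ} (hf : DifferentiableAt ℂ f q) :
    HasDerivAt (fun t => f (q.1, t)) (fderiv ℂ f q (0, 1)) q.2 := by
  have h1 : HasFDerivAt f (fderiv ℂ f q) (q.1, q.2) := hf.hasFDerivAt
  have h2 : HasDerivAt (fun t : ℂ => (q.1, t)) ((0 : ℂ), (1 : ℂ)) q.2 :=
    (hasDerivAt_const q.2 q.1).prodMk (hasDerivAt_id q.2)
  exact h1.comp_hasDerivAt q.2 h2

/-- the Frechet derivative in terms of the partial derivatives -/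
lemma osg_fderiv_eq {f : ℂ × ℂ → F} {q : ℂ × ℂ} (hf : DifferentiableAt ℂ f q) (v : ℂ × ℂ) :
    fderiv ℂ f q v = v.1 • deriv (fun t => f (t, q.2)) q.1 +
      v.2 • deriv (fun t => f (q.1, t)) q.2 := by
  rw [(osg_partial_fst hf).deriv, (osg_partial_snd hf).deriv, ← map_smul, ← map_smul, ← map_add]
  congr 1
  ext <;> simp

variable [CompleteSpace F]

/-- partial derivative in the first variable of a holomorphic function of two variables -/
theorem osg_fst {f : ℂ × ℂ → F} {U : Set (ℂ × ℂ)} (hU : IsOpen U) (hf : DifferentiableOn ℂ f U) :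
    DifferentiableOn ℂ (fun q => deriv (fun t => f (t, q.2)) q.1) U := by
  refine (osg_fderiv_apply hU hf (1, 0)).congr ?_
  intro q hq
  exact (osg_partial_fst (hf.differentiableAt (hU.mem_nhds hq))).deriv

/-- partial derivative in the second variable of a holomorphic function of two variables -/
theorem osg_snd {f : ℂ × ℂ → F} {U : Set (ℂ × ℂ)} (hU : IsOpen U) (hf : DifferentiableOn ℂ f U) :
    DifferentiableOn ℂ (fun q => deriv (fun t => f (q.1, t)) q.2) U := by
  refine (osg_fderiv_apply hU hf (0, 1)).congr ?_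
  intro q hq
  exact (osg_partial_snd (hf.differentiableAt (hU.mem_nhds hq))).deriv

/-- a holomorphic function of two variables has a holomorphic Frechet derivative -/
theorem osg_fderiv {f : ℂ × ℂ → F} {U : Set (ℂ × ℂ)} (hU : IsOpen U)
    (hf : DifferentiableOn ℂ f U) : DifferentiableOn ℂ (fderiv ℂ f) U := by
  have h1 : ∀ q, fderiv ℂ f q = (ContinuousLinearMap.fst ℂ ℂ ℂ).smulRight (fderiv ℂ f q (1, 0)) +
      (ContinuousLinearMap.snd ℂ ℂ ℂ).smulRight (fderiv ℂ f q (0, 1)) := by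
    intro q
    ext
    · simp
    · simp
  have h2 : fderiv ℂ f = fun q =>
      (ContinuousLinearMap.fst ℂ ℂ ℂ).smulRight (fderiv ℂ f q (1, 0)) +
      (ContinuousLinearMap.snd ℂ ℂ ℂ).smulRight (fderiv ℂ f q (0, 1)) := funext h1
  rw [h2]
  have h3 := osg_fderiv_apply hU hf (1, 0)
  have h4 := osg_fderiv_apply hU hf (0, 1)
  refine DifferentiableOn.add ?_ ?_
  · exact (ContinuousLinearMap.smulRightL ℂ (ℂ × ℂ) F
      (ContinuousLinearMap.fst ℂ ℂ ℂ)).differentiable.comp_differentiableOn h3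
  · exact (ContinuousLinearMap.smulRightL ℂ (ℂ × ℂ) F
      (ContinuousLinearMap.snd ℂ ℂ ℂ)).differentiable.comp_differentiableOn h4

/-- a holomorphic function of two variables is smooth -/
theorem osg_contDiffOn {f : ℂ × ℂ → F} {U : Set (ℂ × ℂ)} (hU : IsOpen U)
    (hf : DifferentiableOn ℂ f U) (n : ℕ) : ContDiffOn ℂ n f U := by
  induction n generalizing F with
  | zero => exact contDiffOn_zero.2 hf.continuousOn
  | succ n ih =>
    rw [Nat.cast_succ, contDiffOn_succ_iff_fderiv_of_isOpen hU]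
    exact ⟨hf, by simp, ih (osg_fderiv hU hf)⟩

/-- a holomorphic function of two variables has a strict derivative -/
theorem osg_strict {f : ℂ × ℂ → F} {U : Set (ℂ × ℂ)} (hU : IsOpen U)
    (hf : DifferentiableOn ℂ f U) {q : ℂ × ℂ} (hq : q ∈ U) :
    HasStrictFDerivAt f (fderiv ℂ f q) q := by
  have h1 : ContDiffAt ℂ (1 : ℕ) f q := (osg_contDiffOn hU hf 1).contDiffAt (hU.mem_nhds hq)
  exact h1.hasStrictFDerivAt (by norm_num)

/-- symmetry of the mixed second derivatives -/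
theorem osg_symm {f : ℂ × ℂ → F} {U : Set (ℂ × ℂ)} (hU : IsOpen U)
    (hf : DifferentiableOn ℂ f U) {q : ℂ × ℂ} (hq : q ∈ U) :
    deriv (fun t => deriv (fun s => f (s, t)) q.1) q.2 =
      deriv (fun s => deriv (fun t => f (s, t)) q.2) q.1 := by
  have hd := osg_fderiv hU hf
  have hx : HasFDerivAt (fderiv ℂ f) (fderiv ℂ (fderiv ℂ f) q) q :=
    (hd.differentiableAt (hU.mem_nhds hq)).hasFDerivAt
  have hsymm := second_derivative_symmetric_of_eventually (f := f) (f' := fderiv ℂ f)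
    (f'' := fderiv ℂ (fderiv ℂ f) q) (x := q) (by
      filter_upwards [hU.mem_nhds hq] with y hy
      exact (hf.differentiableAt (hU.mem_nhds hy)).hasFDerivAt) hx (1, 0) (0, 1)
  have e1 : deriv (fun t => deriv (fun s => f (s, t)) q.1) q.2 =
      fderiv ℂ (fderiv ℂ f) q (0, 1) (1, 0) := by
    have h1 : HasDerivAt (fun t : ℂ => (q.1, t)) ((0 : ℂ), (1 : ℂ)) q.2 :=
      (hasDerivAt_const q.2 q.1).prodMk (hasDerivAt_id q.2)
    have h2 : HasDerivAt (fun t : ℂ => fderiv ℂ f (q.1, t)) (fderiv ℂ (fderiv ℂ f) q (0, 1)) q.2 :=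
      HasFDerivAt.comp_hasDerivAt (f := fun t : ℂ => (q.1, t)) q.2 hx h1
    have h3 : HasDerivAt (fun t : ℂ => fderiv ℂ f (q.1, t) (1, 0))
        (fderiv ℂ (fderiv ℂ f) q (0, 1) (1, 0)) q.2 := by
      have := ((ContinuousLinearMap.apply ℂ F ((1 : ℂ), (0 : ℂ))).hasFDerivAt
        (x := fderiv ℂ f (q.1, q.2))).comp_hasDerivAt q.2 h2
      exact this
    have h4 : (fun t => deriv (fun s => f (s, t)) q.1) =ᶠ[𝓝 q.2]
        fun t : ℂ => fderiv ℂ f (q.1, t) (1, 0) := by
      have hmem : ∀ᶠ t in 𝓝 q.2, (q.1, t) ∈ U := by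
        have : ContinuousAt (fun t : ℂ => (q.1, t)) q.2 := by fun_prop
        exact this.eventually (hU.mem_nhds hq)
      filter_upwards [hmem] with t ht
      exact (osg_partial_fst (hf.differentiableAt (hU.mem_nhds ht))).deriv
    exact (h3.congr_of_eventuallyEq h4).deriv
  have e2 : deriv (fun s => deriv (fun t => f (s, t)) q.2) q.1 =
      fderiv ℂ (fderiv ℂ f) q (1, 0) (0, 1) := by
    have h1 : HasDerivAt (fun s : ℂ => (s, q.2)) ((1 : ℂ), (0 : ℂ)) q.1 :=
      (hasDerivAt_id q.1).prodMk (hasDerivAt_const q.1 q.2)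
    have h2 : HasDerivAt (fun s : ℂ => fderiv ℂ f (s, q.2)) (fderiv ℂ (fderiv ℂ f) q (1, 0)) q.1 :=
      HasFDerivAt.comp_hasDerivAt (f := fun s : ℂ => (s, q.2)) q.1 hx h1
    have h3 : HasDerivAt (fun s : ℂ => fderiv ℂ f (s, q.2) (0, 1))
        (fderiv ℂ (fderiv ℂ f) q (1, 0) (0, 1)) q.1 := by
      have := ((ContinuousLinearMap.apply ℂ F ((0 : ℂ), (1 : ℂ))).hasFDerivAt
        (x := fderiv ℂ f (q.1, q.2))).comp_hasDerivAt q.1 h2
      exact this
    have h4 : (fun s => deriv (fun t => f (s, t)) q.2) =ᶠ[𝓝 q.1]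
        fun s : ℂ => fderiv ℂ f (s, q.2) (0, 1) := by
      have hmem : ∀ᶠ s in 𝓝 q.1, (s, q.2) ∈ U := by
        have : ContinuousAt (fun s : ℂ => (s, q.2)) q.1 := by fun_prop
        exact this.eventually (hU.mem_nhds hq)
      filter_upwards [hmem] with s hs
      exact (osg_partial_snd (hf.differentiableAt (hU.mem_nhds hs))).deriv
    exact (h3.congr_of_eventuallyEq h4).deriv
  rw [e1, e2, hsymm]

end Pool.Agent.H63.TC
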