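import Pool.Agent.H79.TC.Osg
import Pool.Agent.H63.TC.Tools

/-!
# Project TC: module LMD (the derivative of `lam` does not vanish)
-/

open Complex Metric Set Filter Topology

namespace Pool.Agent.H63.TC

/-- `P` is differentiable at the points of `YY` -/
lemma lmd_P (hp : PdfStmt) {q : ℂ × ℂ} (hq : q ∈ YY) :
    DifferentiableAt ℂ (fun q : ℂ × ℂ => P q.1 q.2) q :=
  hp.1.differentiableAt (isOpen_YY.mem_nhds hq)

lemma lmd_comp (hp : PdfStmt) {f : ℂ → ℂ} {τ : ℂ} (hf : DifferentiableAt ℂ f τ)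
    (hq : (τ, f τ) ∈ YY) : DifferentiableAt ℂ (fun t => P t (f t)) τ := by
  have h1 : DifferentiableAt ℂ (fun t => (t, f t)) τ := differentiableAt_id.prodMk hf
  exact DifferentiableAt.comp (g := fun q : ℂ × ℂ => P q.1 q.2) (f := fun t => (t, f t)) τ
    (lmd_P hp hq) h1

lemma lmd_e1 (hp : PdfStmt) {τ : ℂ} (h : 0 < τ.im) : DifferentiableAt ℂ e1 τ :=
  lmd_comp hp (f := fun τ => τ / 2) (by fun_prop) ⟨h, not_lat_half1 h⟩

lemma lmd_e2 (hp : PdfStmt) {τ : ℂ} (h : 0 < τ.im) : DifferentiableAt ℂ e2 τ :=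
  lmd_comp hp (f := fun τ => (1 + τ) / 2) (by fun_prop) ⟨h, not_lat_half2 h⟩

lemma lmd_e3 (hp : PdfStmt) {τ : ℂ} (h : 0 < τ.im) : DifferentiableAt ℂ e3 τ :=
  lmd_comp hp (f := fun _ => 1 / 2) (by fun_prop) ⟨h, not_lat_half3 h⟩

lemma lmd_D_ne (hh : HlfStmt) {τ : ℂ} (h : 0 < τ.im) : e2 τ - e1 τ ≠ 0 :=
  sub_ne_zero.2 (hh τ h).1.symm

lemma lmd_lam (hp : PdfStmt) (hh : HlfStmt) {τ : ℂ} (h : 0 < τ.im) :
    DifferentiableAt ℂ lam τ :=
  ((lmd_e3 hp h).sub (lmd_e1 hp h)).div ((lmd_e2 hp h).sub (lmd_e1 hp h)) (lmd_D_ne hh h)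

/-- `yy` is holomorphic on `YY` -/
lemma lmd_yy (hp : PdfStmt) (hh : HlfStmt) {q : ℂ × ℂ} (hq : q ∈ YY) :
    DifferentiableAt ℂ (fun q : ℂ × ℂ => yy q.1 q.2) q := by
  have h := hq.1
  have h1 : DifferentiableAt ℂ (fun q : ℂ × ℂ => P q.1 (q.2 / 2)) q := by
    have h2 : DifferentiableAt ℂ (fun q : ℂ × ℂ => (q.1, q.2 / 2)) q := by fun_prop
    exact DifferentiableAt.comp (g := fun q : ℂ × ℂ => P q.1 q.2)
      (f := fun q : ℂ × ℂ => (q.1, q.2 / 2)) q (lmd_P hp ⟨h, not_lat_div_two hq.2⟩) h2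
  have h3 : DifferentiableAt ℂ (fun q : ℂ × ℂ => e1 q.1) q :=
    DifferentiableAt.comp (g := e1) (f := Prod.fst) q (lmd_e1 hp h) differentiableAt_fst
  have h4 : DifferentiableAt ℂ (fun q : ℂ × ℂ => e2 q.1) q :=
    DifferentiableAt.comp (g := e2) (f := Prod.fst) q (lmd_e2 hp h) differentiableAt_fst
  have h5 : DifferentiableAt ℂ (fun q : ℂ × ℂ => e2 q.1 - e1 q.1) q := h4.sub h3
  have h6 : DifferentiableAt ℂ (fun q : ℂ × ℂ => P q.1 (q.2 / 2) - e1 q.1) q := h1.sub h3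
  have h7 : DifferentiableAt ℂ (fun q : ℂ × ℂ => (e2 q.1 - e1 q.1)⁻¹) q :=
    h5.fun_inv (lmd_D_ne hh h)
  have h8 := h6.fun_mul h7
  simp only [yy, div_eq_mul_inv (P _ _ - e1 _)]
  exact h8

lemma lmd_yyOn (hp : PdfStmt) (hh : HlfStmt) :
    DifferentiableOn ℂ (fun q : ℂ × ℂ => yy q.1 q.2) YY :=
  fun _ hq => (lmd_yy hp hh hq).differentiableWithinAt

lemma lmd_yt (hp : PdfStmt) (hh : HlfStmt) {q : ℂ × ℂ} (hq : q ∈ YY) :
    DifferentiableAt ℂ yt q :=
  (osg_fst isOpen_YY (lmd_yyOn hp hh)).differentiableAt (isOpen_YY.mem_nhds hq)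

lemma lmd_yu (hp : PdfStmt) (hh : HlfStmt) {q : ℂ × ℂ} (hq : q ∈ YY) :
    DifferentiableAt ℂ yu q :=
  (osg_snd isOpen_YY (lmd_yyOn hp hh)).differentiableAt (isOpen_YY.mem_nhds hq)

lemma lmd_hasDeriv_t (hp : PdfStmt) (hh : HlfStmt) {q : ℂ × ℂ} (hq : q ∈ YY) :
    HasDerivAt (fun s => yy s q.2) (yt q) q.1 := by
  have h := osg_partial_fst (lmd_yy hp hh hq)
  have e : yt q = _ := h.deriv
  rw [e]; exact h

lemma lmd_hasDeriv_u (hp : PdfStmt) (hh : HlfStmt) {q : ℂ × ℂ} (hq : q ∈ YY) :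
    HasDerivAt (yy q.1) (yu q) q.2 := by
  have h := osg_partial_snd (lmd_yy hp hh hq)
  have e : yu q = _ := h.deriv
  rw [e]; exact h

/-- the differential equation of `yy` -/
lemma lmd_ode (hp : PdfStmt) (hh : HlfStmt) (ho : OdeStmt) {q : ℂ × ℂ} (hq : q ∈ YY) :
    yu q ^ 2 = (e2 q.1 - e1 q.1) *
      (yy q.1 q.2 ^ 3 - (1 + lam q.1) * yy q.1 q.2 ^ 2 + lam q.1 * yy q.1 q.2) := by
  have h := hq.1
  have hD := lmd_D_ne hh h
  have hP : DifferentiableAt ℂ (P q.1) (q.2 / 2) :=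
    (osg_partial_snd (lmd_P hp (q := (q.1, q.2 / 2)) ⟨h, not_lat_div_two hq.2⟩)).differentiableAt
  have h1 : HasDerivAt (yy q.1) (deriv (P q.1) (q.2 / 2) * (1 / 2) / (e2 q.1 - e1 q.1)) q.2 := by
    have h2 : HasDerivAt (fun u : ℂ => u / 2) (1 / 2) q.2 := (hasDerivAt_id q.2).div_const 2
    have h3 : HasDerivAt (fun u : ℂ => P q.1 (u / 2)) (deriv (P q.1) (q.2 / 2) * (1 / 2)) q.2 :=
      HasDerivAt.comp (h₂ := P q.1) (h := fun u : ℂ => u / 2) q.2 hP.hasDerivAt h2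
    exact (h3.sub_const _).div_const _
  have h4 : yu q = deriv (P q.1) (q.2 / 2) * (1 / 2) / (e2 q.1 - e1 q.1) := h1.deriv
  have h5 := ho q.1 h (q.2 / 2) (two_mul_half_not hq.2)
  have h6 : P q.1 (q.2 / 2) = yy q.1 q.2 * (e2 q.1 - e1 q.1) + e1 q.1 := by
    unfold yy; field_simp; ring
  have h7 : e3 q.1 = lam q.1 * (e2 q.1 - e1 q.1) + e1 q.1 := by
    unfold lam; field_simp; ring
  rw [h4, div_pow, mul_pow, h5, h7, h6, div_eq_iff (pow_ne_zero 2 hD)]
  ring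

/-- `yy` avoids `0, 1, lam` -/
lemma lmd_yy_ne (hh : HlfStmt) {q : ℂ × ℂ} (hq : q ∈ YY) :
    yy q.1 q.2 ≠ 0 ∧ yy q.1 q.2 ≠ 1 ∧ yy q.1 q.2 ≠ lam q.1 := by
  have h := hq.1
  have hD := lmd_D_ne hh h
  obtain ⟨h1, h2, h3⟩ := (hh q.1 h).2.2.2 (q.2 / 2) (two_mul_half_not hq.2)
  refine ⟨?_, ?_, ?_⟩
  · unfold yy
    exact div_ne_zero (sub_ne_zero.2 h1) hD
  · unfold yy
    rw [Ne, div_eq_one_iff_eq hD]
    exact fun h' => h2 (by linear_combination h')
  · unfold yy lam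
    rw [Ne, div_left_inj' hD]
    exact fun h' => h3 (by linear_combination h')

lemma lmd_yu_ne (hp : PdfStmt) (hh : HlfStmt) (ho : OdeStmt) {q : ℂ × ℂ} (hq : q ∈ YY) :
    yu q ≠ 0 := by
  intro h0
  have h1 := lmd_ode hp hh ho hq
  obtain ⟨a, b, c⟩ := lmd_yy_ne hh hq
  have h2 : (e2 q.1 - e1 q.1) * (yy q.1 q.2 * (yy q.1 q.2 - 1) * (yy q.1 q.2 - lam q.1)) = 0 := by
    rw [h0] at h1
    linear_combination -h1
  have h3 : (e2 q.1 - e1 q.1) * (yy q.1 q.2 * (yy q.1 q.2 - 1) * (yy q.1 q.2 - lam q.1)) ≠ 0 :=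
    mul_ne_zero (lmd_D_ne hh hq.1) (mul_ne_zero (mul_ne_zero a (sub_ne_zero.2 b))
      (sub_ne_zero.2 c))
  exact h3 h2

/-- derivative of the quotient `yt / yu` along the fibre at a critical point of `lam` -/
lemma lmd_v (hp : PdfStmt) (hh : HlfStmt) (ho : OdeStmt) {q : ℂ × ℂ} (hq : q ∈ YY)
    (h0 : deriv lam q.1 = 0) :
    HasDerivAt (fun t => yt (q.1, t) / yu (q.1, t))
      (deriv (fun s => e2 s - e1 s) q.1 / (2 * (e2 q.1 - e1 q.1))) q.2 := by
  have h := hq.1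
  have hD := lmd_D_ne hh h
  have hyu := lmd_yu_ne hp hh ho hq
  set D := fun s => e2 s - e1 s with hDdef
  -- second derivatives
  have a1 : HasDerivAt (fun t => yt (q.1, t)) (deriv (fun t => yt (q.1, t)) q.2) q.2 :=
    (osg_partial_snd (lmd_yt hp hh hq)).differentiableAt.hasDerivAt
  have a2 : HasDerivAt (fun t => yu (q.1, t)) (deriv (fun t => yu (q.1, t)) q.2) q.2 :=
    (osg_partial_snd (lmd_yu hp hh hq)).differentiableAt.hasDerivAt
  have a3 : HasDerivAt (fun s => yu (s, q.2)) (deriv (fun s => yu (s, q.2)) q.1) q.1 :=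
    (osg_partial_fst (lmd_yu hp hh hq)).differentiableAt.hasDerivAt
  have a4 : deriv (fun t => yt (q.1, t)) q.2 = deriv (fun s => yu (s, q.2)) q.1 :=
    osg_symm isOpen_YY (lmd_yyOn hp hh) hq
  have b1 := lmd_hasDeriv_u hp hh hq
  have b2 := lmd_hasDeriv_t hp hh hq
  have b3 : HasDerivAt D (deriv D q.1) q.1 :=
    ((lmd_e2 hp h).sub (lmd_e1 hp h)).hasDerivAt
  have b4 : HasDerivAt lam 0 q.1 := by
    rw [← h0]; exact (lmd_lam hp hh h).hasDerivAt
  set y := yy q.1 q.2 with hy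
  set lm := lam q.1 with hlm
  -- derivative of the equation in `u`
  have c1 : 2 * yu q * deriv (fun t => yu (q.1, t)) q.2 =
      D q.1 * ((3 * y ^ 2 - 2 * (1 + lm) * y + lm) * yu q) := by
    have e1' : HasDerivAt (fun t => yu (q.1, t) ^ 2)
        (2 * yu q * deriv (fun t => yu (q.1, t)) q.2) q.2 := by
      have := a2.fun_pow 2
      simpa using this
    have e2' : HasDerivAt (fun t => D q.1 * (yy q.1 t ^ 3 - (1 + lm) * yy q.1 t ^ 2 +
        lm * yy q.1 t)) (D q.1 * ((3 * y ^ 2 - 2 * (1 + lm) * y + lm) * yu q)) q.2 := by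
      have := (((b1.pow 3).sub ((b1.pow 2).const_mul (1 + lm))).add
        (b1.const_mul lm)).const_mul (D q.1)
      refine this.congr_deriv ?_
      simp only [hy]
      push_cast
      ring
    have e3' : (fun t => yu (q.1, t) ^ 2) =ᶠ[𝓝 q.2] fun t =>
        D q.1 * (yy q.1 t ^ 3 - (1 + lm) * yy q.1 t ^ 2 + lm * yy q.1 t) := by
      have hmem : ∀ᶠ t in 𝓝 q.2, (q.1, t) ∈ YY := by
        have : ContinuousAt (fun t : ℂ => (q.1, t)) q.2 := by fun_prop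
        exact this.eventually (isOpen_YY.mem_nhds hq)
      filter_upwards [hmem] with t ht
      exact lmd_ode hp hh ho ht
    exact e1'.unique (e2'.congr_of_eventuallyEq e3')
  -- derivative of the equation in `τ`
  have c2 : 2 * yu q * deriv (fun s => yu (s, q.2)) q.1 =
      deriv D q.1 * (y ^ 3 - (1 + lm) * y ^ 2 + lm * y) +
        D q.1 * ((3 * y ^ 2 - 2 * (1 + lm) * y + lm) * yt q) := by
    have e1' : HasDerivAt (fun s => yu (s, q.2) ^ 2)
        (2 * yu q * deriv (fun s => yu (s, q.2)) q.1) q.1 := by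
      have := a3.fun_pow 2
      simpa using this
    have e2' : HasDerivAt (fun s => D s * (yy s q.2 ^ 3 - (1 + lam s) * yy s q.2 ^ 2 +
        lam s * yy s q.2)) (deriv D q.1 * (y ^ 3 - (1 + lm) * y ^ 2 + lm * y) +
        D q.1 * ((3 * y ^ 2 - 2 * (1 + lm) * y + lm) * yt q)) q.1 := by
      have := b3.mul (((b2.pow 3).sub ((b4.const_add 1).mul (b2.pow 2))).add
        (b4.mul b2))
      refine this.congr_deriv ?_
      simp only [hy, hlm, Pi.mul_apply, Pi.add_apply, Pi.sub_apply, Pi.pow_apply]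
      push_cast
      ring
    have e3' : (fun s => yu (s, q.2) ^ 2) =ᶠ[𝓝 q.1] fun s =>
        D s * (yy s q.2 ^ 3 - (1 + lam s) * yy s q.2 ^ 2 + lam s * yy s q.2) := by
      have hmem : ∀ᶠ s in 𝓝 q.1, (s, q.2) ∈ YY := by
        have : ContinuousAt (fun s : ℂ => (s, q.2)) q.1 := by fun_prop
        exact this.eventually (isOpen_YY.mem_nhds hq)
      filter_upwards [hmem] with s hs
      exact lmd_ode hp hh ho hs
    exact e1'.unique (e2'.congr_of_eventuallyEq e3')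
  have c3 : yu q ^ 2 = D q.1 * (y ^ 3 - (1 + lm) * y ^ 2 + lm * y) := lmd_ode hp hh ho hq
  have hD' : D q.1 ≠ 0 := hD
  have hv := a1.div a2 (by exact hyu)
  refine hv.congr_deriv ?_
  rw [a4]
  change (deriv (fun s => yu (s, q.2)) q.1 * yu q - yt q * deriv (fun t => yu (q.1, t)) q.2) /
    yu q ^ 2 = deriv D q.1 / (2 * D q.1)
  have c1' : 2 * deriv (fun t => yu (q.1, t)) q.2 = D q.1 * (3 * y ^ 2 - 2 * (1 + lm) * y + lm) := by
    apply mul_left_cancel₀ hyu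
    linear_combination c1
  rw [div_eq_div_iff (pow_ne_zero 2 hyu) (mul_ne_zero two_ne_zero hD')]
  linear_combination D q.1 * c2 - D q.1 * yt q * c1' + (-deriv D q.1) * c3

/-- the increment of `v` along a real line which avoids the lattice -/
lemma lmd_line {v : ℂ → ℂ} {al t₀ w : ℂ}
    (h : ∀ s : ℝ, HasDerivAt v al (t₀ + s * w)) : v (t₀ + w) = v t₀ + al * w := by
  have h1 : ∀ s : ℝ, HasDerivAt (fun s : ℝ => v (t₀ + s * w) - al * (s * w)) 0 s := by
    intro s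
    have h2 : HasDerivAt (fun s : ℝ => t₀ + (s : ℂ) * w) w s := by
      have := ((Complex.ofRealCLM.hasDerivAt (x := s)).mul_const w).const_add t₀
      simpa using this
    have h3 : HasDerivAt (fun s : ℝ => v (t₀ + s * w)) (al * w) s := (h s).comp s h2
    have h4 : HasDerivAt (fun s : ℝ => al * ((s : ℂ) * w)) (al * w) s := by
      have := (((Complex.ofRealCLM.hasDerivAt (x := s)).mul_const w)).const_mul al
      simpa using this
    simpa using h3.fun_sub h4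
  have h5 := is_const_of_deriv_eq_zero (f := fun s : ℝ => v (t₀ + s * w) - al * (s * w))
    (fun s => (h1 s).differentiableAt) (fun s => (h1 s).deriv) 1 0
  simp only [Complex.ofReal_one, one_mul, Complex.ofReal_zero, zero_mul, mul_zero, add_zero,
    sub_zero] at h5
  linear_combination h5

lemma lmd_yy_add_two (hp : PdfStmt) {τ : ℂ} (h : 0 < τ.im) (u : ℂ) : yy τ (u + 2) = yy τ u := by
  unfold yy
  have e : (u + 2) / 2 = u / 2 + 1 := by ring
  rw [e, (hp.2 τ h (u / 2)).1]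

lemma lmd_yy_add_two_mul (hp : PdfStmt) {τ : ℂ} (h : 0 < τ.im) (u : ℂ) :
    yy τ (u + 2 * τ) = yy τ u := by
  unfold yy
  have e : (u + 2 * τ) / 2 = u / 2 + τ := by ring
  rw [e, (hp.2 τ h (u / 2)).2.1]

lemma lmd_im_nhds {τ : ℂ} (h : 0 < τ.im) : ∀ᶠ s : ℂ in 𝓝 τ, 0 < s.im :=
  isOpen_upperC.mem_nhds h

/-- `yt`, `yu` under `u ↦ u + 2` -/
lemma lmd_two (hp : PdfStmt) {τ u : ℂ} (h : 0 < τ.im) :
    yt (τ, u + 2) = yt (τ, u) ∧ yu (τ, u + 2) = yu (τ, u) := by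
  constructor
  · unfold yt
    refine Filter.EventuallyEq.deriv_eq ?_
    filter_upwards [lmd_im_nhds h] with s hs
    exact lmd_yy_add_two hp hs u
  · unfold yu
    simp only
    have e : yy τ = fun x => yy τ (x + 2) := funext fun x => (lmd_yy_add_two hp h x).symm
    conv_rhs => rw [e]
    rw [deriv_comp_add_const]

/-- `yt`, `yu` under `u ↦ u + 2 τ` -/
lemma lmd_two_mul (hp : PdfStmt) (hh : HlfStmt) {τ u : ℂ} (hq : (τ, u) ∈ YY) :
    yt (τ, u + 2 * τ) + 2 * yu (τ, u + 2 * τ) = yt (τ, u) ∧ yu (τ, u + 2 * τ) = yu (τ, u) := by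
  have h : 0 < τ.im := hq.1
  have hq' : (τ, u + 2 * τ) ∈ YY := by
    refine ⟨h, fun h' => hq.2 ?_⟩
    have e : u + 2 * τ = u + ((2 : ℤ) * τ + (0 : ℤ)) := by push_cast; ring
    exact (lat_add_iff (lat_int τ 2 0)).1 (by rw [← e]; exact h')
  constructor
  · have hd := (lmd_yy hp hh hq').hasFDerivAt
    have h1 : HasDerivAt (fun s : ℂ => (s, u + 2 * s)) ((1 : ℂ), (2 : ℂ)) τ := by
      refine (hasDerivAt_id τ).prodMk ?_
      have := ((hasDerivAt_id τ).const_mul (2 : ℂ)).const_add u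
      simpa using this
    have h2 : HasDerivAt (fun s : ℂ => yy s (u + 2 * s))
        (fderiv ℂ (fun q : ℂ × ℂ => yy q.1 q.2) (τ, u + 2 * τ) (1, 2)) τ :=
      HasFDerivAt.comp_hasDerivAt (f := fun s : ℂ => (s, u + 2 * s)) τ hd h1
    rw [osg_fderiv_eq (lmd_yy hp hh hq')] at h2
    have h3 : (fun s : ℂ => yy s u) =ᶠ[𝓝 τ] fun s : ℂ => yy s (u + 2 * s) := by
      filter_upwards [lmd_im_nhds h] with s hs
      exact (lmd_yy_add_two_mul hp hs u).symm
    have h4 := h2.congr_of_eventuallyEq h3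
    have h5 := (lmd_hasDeriv_t hp hh hq).unique h4
    rw [h5]
    simp only [smul_eq_mul, one_mul]
    rfl
  · unfold yu
    simp only
    have e : yy τ = fun x => yy τ (x + 2 * τ) :=
      funext fun x => (lmd_yy_add_two_mul hp h x).symm
    conv_rhs => rw [e]
    rw [deriv_comp_add_const]

/-- LMD: `lam` is holomorphic with nonvanishing derivative. -/
theorem lmd (hp : PdfStmt) (hh : HlfStmt) (ho : OdeStmt) : LmdStmt := by
  intro τ h
  refine ⟨lmd_lam hp hh h, fun h0 => ?_⟩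
  set al := deriv (fun s => e2 s - e1 s) τ / (2 * (e2 τ - e1 τ)) with hal
  set v := fun t => yt (τ, t) / yu (τ, t) with hv
  have hder : ∀ t, ¬ Lat τ t → HasDerivAt v al t := by
    intro t ht
    exact lmd_v hp hh ho (q := (τ, t)) ⟨h, ht⟩ h0
  -- the horizontal line
  have l1 : ∀ s : ℝ, ¬ Lat τ (τ / 2 + s * 2) := by
    intro s
    have e : τ / 2 + s * 2 = ((1 / 2 : ℝ) : ℂ) * τ + ((s * 2 : ℝ) : ℂ) := by push_cast; ring
    rw [e, lat_leaf h]
    exact fun h => half_not_int h.1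
  have l2 : ∀ s : ℝ, ¬ Lat τ (1 / 2 + s * (2 * τ)) := by
    intro s
    have e : 1 / 2 + s * (2 * τ) = ((s * 2 : ℝ) : ℂ) * τ + ((1 / 2 : ℝ) : ℂ) := by
      push_cast; ring
    rw [e, lat_leaf h]
    exact fun h => half_not_int h.2
  have k1 := lmd_line (v := v) (al := al) (t₀ := τ / 2) (w := 2) (fun s => hder _ (l1 s))
  have k2 := lmd_line (v := v) (al := al) (t₀ := 1 / 2) (w := 2 * τ) (fun s => hder _ (l2 s))
  have m1 : v (τ / 2 + 2) = v (τ / 2) := by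
    simp only [hv]
    rw [(lmd_two hp h).1, (lmd_two hp h).2]
  have hal0 : al = 0 := by
    rw [m1] at k1
    linear_combination -k1 / 2
  have hq : (τ, (1 / 2 : ℂ)) ∈ YY := ⟨h, not_lat_half3 h⟩
  obtain ⟨n1, n2⟩ := lmd_two_mul hp hh hq
  have hyu := lmd_yu_ne hp hh ho hq
  have m2 : v (1 / 2 + 2 * τ) = v (1 / 2) - 2 := by
    simp only [hv]
    rw [n2, ← n1, n2]
    field_simp
    ring
  rw [m2, hal0] at k2
  have : (2 : ℂ) = 0 := by linear_combination -k2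
  norm_num at this

end Pool.Agent.H63.TC
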