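import Pool.Agent.H79.TC.Z1a

/-!
# Project TC: module Z1 (the second elliptic structure near the puncture)
-/

open Complex Metric Set Filter Topology

namespace Pool.Agent.H63.TC

/-- small nonzero numbers are not in the lattice -/
lemma z1_lat {τ : ℂ} (h : 0 < τ.im) : ∀ᶠ u in 𝓝[≠] (0 : ℂ), ¬ Lat τ u := by
  have h1 : ContinuousAt (fun u : ℂ => ca (τ, u)) 0 := by
    have h2 : ContinuousAt ca (τ, (0 : ℂ)) :=
      continuousOn_ca.continuousAt (isOpen_upper.mem_nhds h)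
    exact ContinuousAt.comp (g := ca) (f := fun u : ℂ => (τ, u)) h2 (by fun_prop)
  have h1' : ContinuousAt (fun u : ℂ => cb (τ, u)) 0 := by
    have h2 : ContinuousAt cb (τ, (0 : ℂ)) :=
      continuousOn_cb.continuousAt (isOpen_upper.mem_nhds h)
    exact ContinuousAt.comp (g := cb) (f := fun u : ℂ => (τ, u)) h2 (by fun_prop)
  have e1 : ca (τ, 0) = 0 := by simp [ca]
  have e2 : cb (τ, 0) = 0 := by simp [cb]
  have h3 : ∀ᶠ u in 𝓝 (0 : ℂ), |ca (τ, u)| < 1 := by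
    have h5 : |ca (τ, (0 : ℂ))| < 1 := by rw [e1]; simp
    exact h1.abs.tendsto.eventually_lt_const h5
  have h4 : ∀ᶠ u in 𝓝 (0 : ℂ), |cb (τ, u)| < 1 := by
    have h5 : |cb (τ, (0 : ℂ))| < 1 := by rw [e2]; simp
    exact h1'.abs.tendsto.eventually_lt_const h5
  rw [eventually_nhdsWithin_iff]
  filter_upwards [h3, h4] with u a b hu hl
  apply hu
  rw [lat_iff h] at hl
  obtain ⟨⟨m, hm⟩, n, hn⟩ := hl
  have hm0 : m = 0 := by
    rw [hm] at a
    have : |m| < 1 := by exact_mod_cast a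
    exact Int.abs_lt_one_iff.1 this
  have hn0 : n = 0 := by
    rw [hn] at b
    have : |n| < 1 := by exact_mod_cast b
    exact Int.abs_lt_one_iff.1 this
  have e : (ca (τ, u) : ℂ) * τ + cb (τ, u) = u := ca_cb (q := (τ, u)) h
  rw [hm, hn, hm0, hn0] at e
  simpa using e.symm

lemma z1_inv_analytic {f : ℂ → ℂ} {κ : ℂ} (hκ : κ ≠ 0)
    (hlim : Tendsto (fun u : ℂ => u ^ 2 * f u) (𝓝[≠] 0) (𝓝 κ))
    (hd : ∀ᶠ u in 𝓝[≠] (0 : ℂ), DifferentiableAt ℂ f u)
    (hne : ∀ᶠ u in 𝓝[≠] (0 : ℂ), f u ≠ 0) {δ : ℝ} (hδ : 0 < δ) :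
    ∃ s > 0, ∀ w : ℂ, s < ‖w‖ → ∃ u : ℂ, u ≠ 0 ∧ ‖u‖ < δ ∧ f u = w := by
  set g : ℂ → ℂ := fun u => if u = 0 then 0 else (f u)⁻¹ with hg
  have hg0 : g 0 = 0 := by simp [hg]
  have hgu : ∀ u, u ≠ 0 → g u = (f u)⁻¹ := fun u hu => by simp [hg, hu]
  have hcont : ContinuousAt g 0 := by
    have h1 : Tendsto (fun u : ℂ => u ^ 2 * (u ^ 2 * f u)⁻¹) (𝓝[≠] 0) (𝓝 (0 ^ 2 * κ⁻¹)) := by
      refine Tendsto.mul ?_ (hlim.inv₀ hκ)
      have : Tendsto (fun u : ℂ => u ^ 2) (𝓝 0) (𝓝 (0 ^ 2)) := (continuous_pow 2).tendsto 0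
      exact this.mono_left nhdsWithin_le_nhds
    have h2 : Tendsto g (𝓝[≠] 0) (𝓝 (0 ^ 2 * κ⁻¹)) := by
      refine h1.congr' ?_
      filter_upwards [self_mem_nhdsWithin] with u hu
      have hu' : u ≠ 0 := hu
      rw [hgu u hu', mul_inv, ← mul_assoc, mul_inv_cancel₀ (pow_ne_zero 2 hu'), one_mul]
    rw [continuousAt_iff_punctured_nhds, hg0]
    simpa using h2
  have hdg : ∀ᶠ u in 𝓝[≠] (0 : ℂ), DifferentiableAt ℂ g u := by
    filter_upwards [hd, hne, self_mem_nhdsWithin] with u h1 h2 hu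
    have hu' : u ≠ 0 := hu
    have h3 : DifferentiableAt ℂ (fun u => (f u)⁻¹) u := h1.fun_inv h2
    refine h3.congr_of_eventuallyEq ?_
    filter_upwards [isOpen_ne.mem_nhds hu'] with v hv
    exact hgu v hv
  have han : AnalyticAt ℂ g 0 :=
    Complex.analyticAt_of_differentiable_on_punctured_nhds_of_continuousAt hdg hcont
  rcases han.eventually_constant_or_nhds_le_map_nhds with h | h
  · exfalso
    have h1 : ∀ᶠ u in 𝓝[≠] (0 : ℂ), g u = g 0 := h.filter_mono nhdsWithin_le_nhds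
    have h2 : ∀ᶠ u in 𝓝[≠] (0 : ℂ), False := by
      filter_upwards [h1, hne, self_mem_nhdsWithin] with u a b hu
      have hu' : u ≠ 0 := hu
      rw [hgu u hu', hg0, inv_eq_zero] at a
      exact b a
    rw [Filter.eventually_false_iff_eq_bot] at h2
    exact (NeBot.ne (inferInstance : NeBot (𝓝[≠] (0 : ℂ)))) h2
  · have h1 : g '' ball 0 δ ∈ 𝓝 (g 0) := h (image_mem_map (ball_mem_nhds _ hδ))
    rw [hg0] at h1
    obtain ⟨s, hs, hsub⟩ := Metric.mem_nhds_iff.1 h1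
    refine ⟨s⁻¹, by positivity, fun w hw => ?_⟩
    have hw0 : 0 < ‖w‖ := (inv_pos.2 hs).trans hw
    have hw' : w ≠ 0 := norm_pos_iff.1 hw0
    have h2 : w⁻¹ ∈ ball (0 : ℂ) s := by
      rw [mem_ball_zero_iff, norm_inv]
      exact inv_lt_of_inv_lt₀ hs hw
    obtain ⟨u, hu, huw⟩ := hsub h2
    have hu0 : u ≠ 0 := by
      rintro rfl
      rw [hg0] at huw
      exact inv_ne_zero hw' huw.symm
    refine ⟨u, hu0, by simpa using hu, ?_⟩
    rw [hgu u hu0] at huw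
    exact inv_injective huw

lemma z1_yy_diff (hphd : PhdStmt) {q : ℂ × ℂ} (hq : q ∈ YY) :
    DifferentiableAt ℂ (fun q : ℂ × ℂ => yy q.1 q.2) q := by
  obtain ⟨-, -, -, -, -, L, hL, -⟩ := hphd q hq
  exact hL.hasFDerivAt.differentiableAt.snd

/-- Z1: the second structure near the puncture. -/
theorem z1 (hh : HlfStmt) (hcu1 : Cu1Stmt) (hcu2 : Cu2Stmt) (hpol : PolStmt) (hphc : PhcStmt)
    (hphd : PhdStmt) (hatl : AtlStmt) (hlife : LifeStmt) : Z1Stmt := by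
  intro τ₀ hτ₀ hx₀
  set x₀ := lam τ₀ with hx₀def
  obtain ⟨u₀, hu₀, hu₀n⟩ := z1_u0 hx₀
  obtain ⟨r₀, hr₀, hr₀1, hr₀2⟩ := z1_r0 hu₀n
  rw [hu₀] at hr₀1
  obtain ⟨c, hc, hclow⟩ := z1_low hr₀1 hr₀
  set κ := 4 / (e2 τ₀ - e1 τ₀) with hκdef
  have hκ : κ ≠ 0 := div_ne_zero (by norm_num) (sub_ne_zero.2 (hh τ₀ hτ₀).1.symm)
  obtain ⟨hpol1, -, -⟩ := hpol τ₀ hτ₀
  -- the constants
  obtain ⟨R2, hR2⟩ := hcu2 (‖u₀‖ + r₀) (c / 8) (by positivity)
  obtain ⟨R3, hR3⟩ := hcu1 (1 / 32) (by norm_num)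
  set R1 := max (max R2 R3) 0 + 1 with hR1
  have hR1a : R2 < R1 := by
    rw [hR1]; linarith [le_max_left (max R2 R3) 0, le_max_left R2 R3]
  have hR1b : R3 < R1 := by
    rw [hR1]; linarith [le_max_left (max R2 R3) 0, le_max_right R2 R3]
  have hR1c : 1 ≤ R1 := by
    rw [hR1]; linarith [le_max_right (max R2 R3) 0]
  have hlamub : ∀ τ : ℂ, R1 ≤ τ.im → ‖lam τ‖ ≤ Real.exp (Real.pi * τ.im) := by
    intro τ hτ
    have h1 := hR3 τ (hR1b.trans_le hτ)
    have h2 : ‖lam τ * exp (Real.pi * I * τ)‖ ≤ 1 := by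
      calc ‖lam τ * exp (Real.pi * I * τ)‖ =
          ‖(lam τ * exp (Real.pi * I * τ) - 1 / 16) + 1 / 16‖ := by ring_nf
        _ ≤ ‖lam τ * exp (Real.pi * I * τ) - 1 / 16‖ + ‖(1 / 16 : ℂ)‖ := norm_add_le _ _
        _ ≤ 1 := by norm_num; linarith
    rw [norm_mul, Complex.norm_exp] at h2
    have h3 : (Real.pi * I * τ : ℂ).re = -(Real.pi * τ.im) := by
      simp
    rw [h3, Real.exp_neg] at h2
    have h4 := Real.exp_pos (Real.pi * τ.im)
    rw [← div_eq_mul_inv, div_le_one h4] at h2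
    exact h2
  have hlamlb : ∀ τ : ℂ, R1 ≤ τ.im → Real.exp (Real.pi * τ.im) / 32 ≤ ‖lam τ‖ := by
    intro τ hτ
    have h1 := hR3 τ (hR1b.trans_le hτ)
    have h2 : 1 / 32 ≤ ‖lam τ * exp (Real.pi * I * τ)‖ := by
      have : ‖(1 / 16 : ℂ)‖ ≤ ‖lam τ * exp (Real.pi * I * τ)‖ +
          ‖lam τ * exp (Real.pi * I * τ) - 1 / 16‖ := by
        calc ‖(1 / 16 : ℂ)‖ = ‖lam τ * exp (Real.pi * I * τ) -
            (lam τ * exp (Real.pi * I * τ) - 1 / 16)‖ := by ring_nf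
          _ ≤ _ := norm_sub_le _ _
      norm_num at this ⊢
      linarith
    rw [norm_mul, Complex.norm_exp] at h2
    have h3 : (Real.pi * I * τ : ℂ).re = -(Real.pi * τ.im) := by
      simp
    rw [h3, Real.exp_neg] at h2
    have h4 := Real.exp_pos (Real.pi * τ.im)
    rw [← div_eq_mul_inv, le_div_iff₀ h4] at h2
    linarith
  set B := Real.exp (Real.pi * R1) with hB
  -- smallness of `u`
  have hbig : ∀ N : ℝ, ∀ᶠ u in 𝓝[≠] (0 : ℂ), N < ‖yy τ₀ u‖ := by
    intro N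
    have h1 : Tendsto (fun u : ℂ => ‖u ^ 2 * yy τ₀ u‖) (𝓝[≠] 0) (𝓝 ‖κ‖) := hpol1.norm
    have hκ' : 0 < ‖κ‖ := norm_pos_iff.2 hκ
    have h2 := h1.eventually_const_lt (show ‖κ‖ / 2 < ‖κ‖ by linarith)
    have h3 : Tendsto (fun u : ℂ => (|N| + 1) * ‖u‖ ^ 2) (𝓝[≠] 0) (𝓝 0) := by
      have : Tendsto (fun u : ℂ => (|N| + 1) * ‖u‖ ^ 2) (𝓝 0) (𝓝 ((|N| + 1) * ‖(0 : ℂ)‖ ^ 2)) :=
        (by fun_prop : Continuous fun u : ℂ => (|N| + 1) * ‖u‖ ^ 2).tendsto 0
      simpa using this.mono_left nhdsWithin_le_nhds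
    have h4 := h3.eventually_lt_const (show 0 < ‖κ‖ / 2 by positivity)
    filter_upwards [h2, h4, self_mem_nhdsWithin] with u a b hu
    have hu' : 0 < ‖u‖ := norm_pos_iff.2 hu
    rw [norm_mul, norm_pow] at a
    by_contra hN
    push Not at hN
    have h5 : ‖u‖ ^ 2 * ‖yy τ₀ u‖ ≤ ‖u‖ ^ 2 * |N| :=
      mul_le_mul_of_nonneg_left (hN.trans (le_abs_self N)) (by positivity)
    nlinarith [sq_nonneg ‖u‖]
  have hev := (hbig B).and (z1_lat hτ₀)
  rw [eventually_nhdsWithin_iff] at hev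
  obtain ⟨δ, hδ, hδ'⟩ := Metric.eventually_nhds_iff.1 hev
  have hδB : ∀ u : ℂ, u ≠ 0 → ‖u‖ < δ → B < ‖yy τ₀ u‖ ∧ ¬ Lat τ₀ u := by
    intro u hu hud
    exact hδ' (by rwa [dist_zero_right]) hu
  set ρ₀ := Real.log δ with hρ₀
  have hnormexp : ∀ z : ℂ, ‖exp z‖ = Real.exp z.re := fun z => Complex.norm_exp z
  have hexpδ : ∀ z : ℂ, z.re < ρ₀ → ‖exp z‖ < δ := by
    intro z hz
    rw [hnormexp, ← Real.exp_log hδ]
    exact Real.exp_lt_exp.2 hz
  have hYY : ∀ z : ℂ, z.re < ρ₀ → (τ₀, exp z) ∈ YY := fun z hz =>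
    ⟨hτ₀, (hδB _ (exp_ne_zero z) (hexpδ z hz)).2⟩
  have hYB : ∀ z : ℂ, z.re < ρ₀ → B < ‖yy τ₀ (exp z)‖ := fun z hz =>
    (hδB _ (exp_ne_zero z) (hexpδ z hz)).1
  -- the base point
  obtain ⟨s, hs, hsurj⟩ := z1_inv_analytic (f := yy τ₀) hκ hpol1 (by
      filter_upwards [z1_lat hτ₀] with u hu
      exact (z1_yy_diff hphd (q := (τ₀, u)) ⟨hτ₀, hu⟩).comp (f := fun u : ℂ => (τ₀, u)) u
        (by fun_prop)) (by
      filter_upwards [z1_lat hτ₀] with u hu
      exact (hphd (τ₀, u) ⟨hτ₀, hu⟩).1.2.2.1) hδ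
  obtain ⟨t, ht1, ht2, ht3⟩ : ∃ t : ℝ, R1 < t ∧ ‖u₀‖ + r₀ < t ∧ s < Real.exp (Real.pi * t) / 32 := by
    have h1 : Tendsto (fun t : ℝ => Real.exp (Real.pi * t) / 32) atTop atTop := by
      have h2 : Tendsto (fun t : ℝ => Real.pi * t) atTop atTop :=
        tendsto_id.const_mul_atTop Real.pi_pos
      exact (Real.tendsto_exp_atTop.comp h2).atTop_div_const (by norm_num)
    obtain ⟨t, h⟩ := ((eventually_gt_atTop R1).and ((eventually_gt_atTop (‖u₀‖ + r₀)).and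
      (h1.eventually_gt_atTop s))).exists
    exact ⟨t, h.1, h.2.1, h.2.2⟩
  set Tb : ℂ := t * I with hTb
  have hTbim : Tb.im = t := by simp [hTb]
  have hTpos : 0 < Tb.im := by rw [hTbim]; linarith
  obtain ⟨us, hus0, husδ, husw⟩ := hsurj (lam Tb) (by
    have := hlamlb Tb (by rw [hTbim]; exact ht1.le)
    rw [hTbim] at this
    exact ht3.trans_le this)
  set zb := Complex.log us with hzb
  have hexpzb : exp zb = us := Complex.exp_log hus0
  have hzbre : zb.re < ρ₀ := by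
    have h1 : zb.re = Real.log ‖us‖ := Complex.log_re us
    rw [h1]
    exact Real.log_lt_log (norm_pos_iff.2 hus0) husδ
  -- the point `v*`
  have hTvYY : ∀ v : ℂ, ‖v - u₀‖ ≤ r₀ → (Tb, Tb + v) ∈ YY := by
    intro v hv
    refine ⟨hTpos, fun hl => ?_⟩
    have hvn : ‖v‖ ≤ ‖u₀‖ + r₀ := by
      calc ‖v‖ = ‖u₀ + (v - u₀)‖ := by ring_nf
        _ ≤ ‖u₀‖ + ‖v - u₀‖ := norm_add_le _ _
        _ ≤ _ := by linarith
    have hl2 : Lat Tb v := by
      have : Tb + v = v + ((1 : ℤ) * Tb + (0 : ℤ)) := by push_cast; ring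
      simp only at hl
      rw [this] at hl
      exact (lat_add_iff (lat_int Tb 1 0)).1 hl
    obtain ⟨m, n, hmn⟩ := hl2
    have him : v.im = m * t := by
      rw [hmn]; simp [hTbim]
    have hre : v.re = n := by
      rw [hmn]; simp [hTb]
    exact hr₀2 v hv n hre
  have hcu2' : ∀ τ : ℂ, R1 ≤ τ.im → ∀ v : ℂ, ‖v - u₀‖ ≤ r₀ →
      ‖yy τ (τ + v) - sin (Real.pi * v / 2) ^ 2‖ < c / 8 := by
    intro τ hτ v hv
    refine hR2 τ (hR1a.trans_le hτ) v ?_
    calc ‖v‖ = ‖u₀ + (v - u₀)‖ := by ring_nf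
      _ ≤ ‖u₀‖ + ‖v - u₀‖ := norm_add_le _ _
      _ ≤ _ := by linarith
  obtain ⟨vb, hvb, hvbx⟩ : ∃ v : ℂ, ‖v - u₀‖ < r₀ ∧ yy Tb (Tb + v) = x₀ := by
    set f : ℂ → ℂ := fun v => yy Tb (Tb + v) with hf
    have hfd : ∀ v ∈ closedBall u₀ r₀, DifferentiableAt ℂ f v := by
      intro v hv
      rw [mem_closedBall, dist_eq_norm] at hv
      have h1 : DifferentiableAt ℂ (fun v : ℂ => (Tb, Tb + v)) v := by fun_prop
      exact DifferentiableAt.comp (g := fun q : ℂ × ℂ => yy q.1 q.2)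
        (f := fun v : ℂ => (Tb, Tb + v)) v (z1_yy_diff hphd (hTvYY v hv)) h1
    have hR : R1 ≤ Tb.im := by rw [hTbim]; exact ht1.le
    have hf0 : ‖f u₀ - x₀‖ < c / 8 := by
      have := hcu2' Tb hR u₀ (by simp [hr₀.le])
      rwa [hu₀] at this
    have hfs : ∀ v, ‖v - u₀‖ = r₀ → 7 * c / 8 < ‖f v - x₀‖ := by
      intro v hv
      have h1 := hcu2' Tb hR v hv.le
      have h2 := hclow v hv.ge hv.le
      have h3 : ‖sin (Real.pi * v / 2) ^ 2 - x₀‖ ≤ ‖f v - x₀‖ +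
          ‖f v - sin (Real.pi * v / 2) ^ 2‖ := by
        calc ‖sin (Real.pi * v / 2) ^ 2 - x₀‖ =
            ‖(f v - x₀) - (f v - sin (Real.pi * v / 2) ^ 2)‖ := by ring_nf
          _ ≤ _ := norm_sub_le _ _
      have h4 : ‖f v - sin (Real.pi * v / 2) ^ 2‖ < c / 8 := h1
      linarith
    have hdc : DiffContOnCl ℂ f (ball u₀ r₀) := by
      refine DifferentiableOn.diffContOnCl ?_
      rw [closure_ball u₀ hr₀.ne']
      exact fun v hv => (hfd v hv).differentiableWithinAt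
    have hsph : ∀ v ∈ sphere u₀ r₀, 3 * c / 4 ≤ ‖f v - f u₀‖ := by
      intro v hv
      rw [mem_sphere, dist_eq_norm] at hv
      have h1 := hfs v hv
      have h2 : ‖f v - x₀‖ ≤ ‖f v - f u₀‖ + ‖f u₀ - x₀‖ := by
        calc ‖f v - x₀‖ = ‖(f v - f u₀) + (f u₀ - x₀)‖ := by ring_nf
          _ ≤ _ := norm_add_le _ _
      linarith
    by_cases hfr : ∃ᶠ z in 𝓝 u₀, f z ≠ f u₀
    · have h1 := hdc.ball_subset_image_closedBall hr₀ hsph hfr
      have h2 : x₀ ∈ ball (f u₀) (3 * c / 4 / 2) := by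
        rw [mem_ball, dist_eq_norm, norm_sub_rev]
        linarith
      obtain ⟨v, hv, hvx⟩ := h1 h2
      rw [mem_closedBall, dist_eq_norm] at hv
      refine ⟨v, lt_of_le_of_ne hv (fun hv' => ?_), hvx⟩
      have := hfs v hv'
      rw [hvx, sub_self, norm_zero] at this
      linarith
    · exfalso
      rw [not_frequently] at hfr
      have h1 : ∀ᶠ z in 𝓝 u₀, f z = f u₀ := by
        filter_upwards [hfr] with z hz
        exact not_not.1 hz
      -- `f` is constant on the ball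
      have h2 : AnalyticOnNhd ℂ f (ball u₀ r₀) :=
        hdc.differentiableOn.analyticOnNhd isOpen_ball
      have h3 : EqOn f (fun _ => f u₀) (ball u₀ r₀) :=
        h2.eqOn_of_preconnected_of_eventuallyEq analyticOnNhd_const
          (convex_ball u₀ r₀).isPreconnected (mem_ball_self hr₀) h1
      have h4 : EqOn f (fun _ => f u₀) (closure (ball u₀ r₀)) :=
        h3.of_subset_closure hdc.continuousOn continuousOn_const subset_closure subset_rfl
      rw [closure_ball u₀ hr₀.ne'] at h4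
      have h5 : u₀ + r₀ ∈ sphere u₀ r₀ := by
        rw [mem_sphere, dist_eq_norm]
        simp [abs_of_pos hr₀]
      have h6 := hsph _ h5
      have h7 := h4 (sphere_subset_closedBall h5)
      simp only at h7
      rw [h7, sub_self, norm_zero] at h6
      linarith
  -- the lift
  obtain ⟨hM, hcov, -⟩ := id hphc
  obtain ⟨A, hA⟩ := hatl YY (fun q => Phi (q : ℂ × ℂ)) hM hcov
  set S : Set ℂ := {z | z.re < ρ₀} with hS
  have hSconv : Convex ℝ S := convex_halfSpace_re_lt ρ₀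
  have hSopen : IsOpen S := isOpen_lt Complex.continuous_re continuous_const
  have hYc : ContinuousOn (fun z : ℂ => yy τ₀ (exp z)) S := by
    intro z hz
    have h1 : ContinuousAt (fun q : ℂ × ℂ => yy q.1 q.2) (τ₀, exp z) :=
      (z1_yy_diff hphd (hYY z hz)).continuousAt
    have h2 : ContinuousAt (fun z : ℂ => (τ₀, exp z)) z := by fun_prop
    exact (ContinuousAt.comp (g := fun q : ℂ × ℂ => yy q.1 q.2)
      (f := fun z : ℂ => (τ₀, exp z)) h1 h2).continuousWithinAt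
  have hbase : (Tb, Tb + vb) ∈ YY := hTvYY vb hvb.le
  obtain ⟨G, hGc, hGE, hG0⟩ := hlife YY A ℂ S (fun z => (yy τ₀ (exp z), x₀)) zb ⟨_, hbase⟩
    hSconv hzbre (hYc.prodMk continuousOn_const)
    (fun z hz => by
      have := swap_mem_MM (hphd _ (hYY z hz)).1
      exact this)
    (by
      rw [hA]
      simp only [Phi]
      rw [hvbx, hexpzb, husw])
  set T : ℂ → ℂ := fun z => (G z : ℂ × ℂ).1 with hT
  set U : ℂ → ℂ := fun z => (G z : ℂ × ℂ).2 with hU
  have hTc : ContinuousOn T S :=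
    (continuous_fst.comp continuous_subtype_val).comp_continuousOn hGc
  have hUc : ContinuousOn U S :=
    (continuous_snd.comp continuous_subtype_val).comp_continuousOn hGc
  have hTU : ∀ z, (T z, U z) ∈ YY := fun z => (G z).2
  have hPhi : ∀ z ∈ S, Phi (T z, U z) = (yy τ₀ (exp z), x₀) := by
    intro z hz
    have := hGE z hz
    rw [hA] at this
    exact this
  have hlamT : ∀ z ∈ S, lam (T z) = yy τ₀ (exp z) := fun z hz =>
    congrArg Prod.fst (hPhi z hz)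
  have hyyT : ∀ z ∈ S, yy (T z) (U z) = x₀ := fun z hz => congrArg Prod.snd (hPhi z hz)
  -- clopen argument
  set A' : Set ℂ := S ∩ {z | R1 < (T z).im ∧ ‖U z - T z - u₀‖ < r₀} with hA'
  have hVc : ContinuousOn (fun z => ‖U z - T z - u₀‖) S :=
    ((hUc.sub hTc).sub continuousOn_const).norm
  have hTic : ContinuousOn (fun z => (T z).im) S := Complex.continuous_im.comp_continuousOn hTc
  have hA'open : IsOpen A' := by
    have h1 : IsOpen (S ∩ (fun z => (T z).im) ⁻¹' Ioi R1) :=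
      hTic.isOpen_inter_preimage hSopen isOpen_Ioi
    have h2 : IsOpen (S ∩ (fun z => ‖U z - T z - u₀‖) ⁻¹' Iio r₀) :=
      hVc.isOpen_inter_preimage hSopen isOpen_Iio
    have h3 : A' = (S ∩ (fun z => (T z).im) ⁻¹' Ioi R1) ∩
        (S ∩ (fun z => ‖U z - T z - u₀‖) ⁻¹' Iio r₀) := by
      ext z
      simp only [hA', mem_inter_iff, Set.mem_ofPred_eq, mem_preimage, mem_Ioi, mem_Iio]
      tauto
    rw [h3]
    exact h1.inter h2
  have hne1 : ∀ z ∈ S, (T z).im ≠ R1 := by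
    intro z hz h1
    have h2 := hlamub (T z) h1.ge
    rw [h1, hlamT z hz] at h2
    exact absurd (hYB z hz) (not_lt.2 h2)
  have hne2 : ∀ z ∈ S, R1 ≤ (T z).im → ‖U z - T z - u₀‖ ≠ r₀ := by
    intro z hz h1 h2
    have h3 := hcu2' (T z) h1 (U z - T z) h2.le
    have h4 := hclow (U z - T z) h2.ge h2.le
    have e : T z + (U z - T z) = U z := by ring
    rw [e, hyyT z hz, norm_sub_rev] at h3
    linarith
  have hsubA : S ⊆ A' := by
    refine hSconv.isPreconnected.subset_of_closure_inter_subset hA'open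
      ⟨zb, hzbre, hzbre, ?_, ?_⟩ ?_
    · have e : T zb = Tb := by simp only [hT]; rw [hG0]
      rw [e, hTbim]; exact ht1
    · have e : T zb = Tb := by simp only [hT]; rw [hG0]
      have e' : U zb = Tb + vb := by simp only [hU]; rw [hG0]
      rw [e, e']
      have : Tb + vb - Tb - u₀ = vb - u₀ := by ring
      rw [this]; exact hvb
    · rintro z ⟨hzc, hz⟩
      by_contra hzA
      -- closed conditions
      have hcl : R1 ≤ (T z).im ∧ ‖U z - T z - u₀‖ ≤ r₀ := by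
        constructor
        · by_contra hlt
          push Not at hlt
          have h1 : ∀ᶠ w in 𝓝 z, (T w).im < R1 :=
            (hTic.continuousAt (hSopen.mem_nhds hz)).eventually_lt_const hlt
          obtain ⟨w, hw1, hw2⟩ := (mem_closure_iff_nhds.1 hzc _ h1)
          exact absurd hw2.2.1 (not_lt.2 (le_of_lt hw1))
        · by_contra hlt
          push Not at hlt
          have h1 : ∀ᶠ w in 𝓝 z, r₀ < ‖U w - T w - u₀‖ :=
            (hVc.continuousAt (hSopen.mem_nhds hz)).eventually_const_lt hlt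
          obtain ⟨w, hw1, hw2⟩ := (mem_closure_iff_nhds.1 hzc _ h1)
          exact absurd hw2.2.2 (not_lt.2 (le_of_lt hw1))
      exact hzA ⟨hz, lt_of_le_of_ne hcl.1 (hne1 z hz).symm,
        lt_of_le_of_ne hcl.2 (hne2 z hz hcl.1)⟩
  have hTim : ∀ z ∈ S, R1 < (T z).im := fun z hz => (hsubA hz).2.1
  have hVr : ∀ z ∈ S, ‖U z - T z - u₀‖ < r₀ := fun z hz => (hsubA hz).2.2
  -- `Im T → ∞`
  have hexpsmall : ∀ δ' > 0, ∀ z : ℂ, z.re < Real.log δ' → ‖exp z‖ < δ' := by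
    intro δ' hδ' z hz
    rw [hnormexp, ← Real.exp_log hδ']
    exact Real.exp_lt_exp.2 hz
  have hpunct : ∀ {p : ℂ → Prop}, (∀ᶠ u in 𝓝[≠] (0 : ℂ), p u) →
      ∃ ρ' : ℝ, ∀ z : ℂ, z.re < ρ' → p (exp z) := by
    intro p hp
    rw [eventually_nhdsWithin_iff] at hp
    obtain ⟨δ', hδ'', h⟩ := Metric.eventually_nhds_iff.1 hp
    refine ⟨Real.log δ', fun z hz => ?_⟩
    exact h (by rw [dist_zero_right]; exact hexpsmall δ' hδ'' z hz) (exp_ne_zero z)
  have hTinf : ∀ R : ℝ, ∃ ρ' : ℝ, ∀ z : ℂ, z.re < ρ' → z ∈ S → R < (T z).im := by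
    intro R
    obtain ⟨ρ', hρ'⟩ := hpunct (hbig (Real.exp (Real.pi * R)))
    refine ⟨ρ', fun z hz hzS => ?_⟩
    have h1 := hρ' z hz
    have h2 := hlamub (T z) (hTim z hzS).le
    rw [hlamT z hzS] at h2
    have h3 := Real.exp_lt_exp.1 (h1.trans_le h2)
    exact lt_of_mul_lt_mul_left h3 Real.pi_pos.le
  -- the logarithm
  set F : ℂ → ℂ := fun z => Real.pi * I * T z - 2 * z with hF
  set μ : ℂ := (1 / 16) / κ with hμ
  have hμ0 : μ ≠ 0 := div_ne_zero (by norm_num) hκ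
  have hFlim : ∃ ρ₁ : ℝ, ∀ z : ℂ, z.re < ρ₁ → z ∈ S → ‖exp (F z) - μ‖ < ‖μ‖ / 2 := by
    -- continuity of division at `(1/16, κ)`
    have h1 : ContinuousAt (fun x : ℂ × ℂ => x.1 / x.2) ((1 / 16 : ℂ), κ) :=
      ContinuousAt.div continuousAt_fst continuousAt_snd hκ
    have hμpos : 0 < ‖μ‖ / 2 := by
      have := norm_pos_iff.2 hμ0
      linarith
    obtain ⟨η, hη, h2⟩ := Metric.continuousAt_iff.1 h1 _ hμpos
    obtain ⟨R4, hR4⟩ := hcu1 η hη
    obtain ⟨ρ2, hρ2⟩ := hTinf R4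
    obtain ⟨ρ3, hρ3⟩ := hpunct (Metric.tendsto_nhds.1 hpol1 η hη)
    refine ⟨min ρ2 ρ3, fun z hz hzS => ?_⟩
    have h3 := hR4 (T z) (hρ2 z (hz.trans_le (min_le_left _ _)) hzS)
    have h4 := hρ3 z (hz.trans_le (min_le_right _ _))
    rw [hlamT z hzS] at h3
    have h5 := @h2 (yy τ₀ (exp z) * exp (Real.pi * I * T z), exp z ^ 2 * yy τ₀ (exp z)) (by
      rw [Prod.dist_eq]
      refine max_lt ?_ h4
      rw [dist_eq_norm]; exact h3)
    rw [dist_eq_norm] at h5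
    have h6 : yy τ₀ (exp z) ≠ 0 := (hphd _ (hYY z hzS)).1.2.2.1
    have h7 : exp (F z) = yy τ₀ (exp z) * exp (Real.pi * I * T z) /
        (exp z ^ 2 * yy τ₀ (exp z)) := by
      simp only [hF]
      rw [Complex.exp_sub, ← Complex.exp_nat_mul]
      push_cast
      field_simp
    rw [h7]
    exact h5
  obtain ⟨ρ₁, hρ₁⟩ := hFlim
  set ρ := min ρ₀ ρ₁ with hρ
  have hρS : ∀ z : ℂ, z.re < ρ → z ∈ S := fun z hz => hz.trans_le (min_le_left _ _)
  obtain ⟨C₁, hC₁⟩ : ∃ C : ℝ, ∀ z ∈ {z : ℂ | z.re < ρ}, ‖F z‖ ≤ C := by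
    refine z1_log (convex_halfSpace_re_lt ρ).isPreconnected (F := F) ?_ hμ0 ?_
    · refine ContinuousOn.sub (ContinuousOn.mul continuousOn_const (hTc.mono hρS)) ?_
      exact (continuous_const.mul continuous_id).continuousOn
    · intro z hz
      exact hρ₁ z (lt_of_lt_of_le hz (min_le_right _ _)) (hρS z hz)
  have hTre : ∀ z : ℂ, z.re < ρ → Real.pi * |(T z).re| ≤ C₁ + 2 * |z.im| := by
    intro z hz
    have h1 := hC₁ z hz
    have h2 : (F z).im = Real.pi * (T z).re - 2 * z.im := by simp [hF]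
    have h3 := (Complex.abs_im_le_norm (F z)).trans h1
    rw [h2] at h3
    have h4 : Real.pi * |(T z).re| = |Real.pi * (T z).re| := by
      rw [abs_mul, abs_of_pos Real.pi_pos]
    rw [h4]
    have h5 : |Real.pi * (T z).re| ≤ |Real.pi * (T z).re - 2 * z.im| + |2 * z.im| := by
      have := abs_add_le (Real.pi * (T z).re - 2 * z.im) (2 * z.im)
      simpa using this
    rw [abs_mul 2 z.im, abs_two] at h5
    linarith
  have hTim2 : ∀ z : ℂ, z.re < ρ → Real.pi * (T z).im ≤ C₁ + 2 * |z.re| := by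
    intro z hz
    have h1 := hC₁ z hz
    have h2 : (F z).re = -(Real.pi * (T z).im) - 2 * z.re := by simp [hF]
    have h3 := (Complex.abs_re_le_norm (F z)).trans h1
    rw [h2] at h3
    have h4 := (abs_le.1 h3).1
    have h5 := neg_abs_le z.re
    have h6 := le_abs_self z.re
    linarith
  have hC₁0 : 0 ≤ C₁ := by
    have h1 : ((ρ - 1 : ℝ) : ℂ).re < ρ := by simp
    exact (norm_nonneg _).trans (hC₁ _ h1)
  have hpi1 : 1 ≤ Real.pi := by linarith [Real.pi_gt_three]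
  -- limits along the strip
  have hVlim : ∀ r > 0, ∃ ρ' : ℝ, ∀ z : ℂ, z.re < ρ' → z ∈ S → ‖U z - T z - u₀‖ < r := by
    intro r hr
    obtain ⟨c', hc', hc'low⟩ := z1_low hr₀1 hr
    obtain ⟨R5, hR5⟩ := hcu2 (‖u₀‖ + r₀) c' hc'
    obtain ⟨ρ', hρ'⟩ := hTinf R5
    refine ⟨ρ', fun z hz hzS => ?_⟩
    by_contra hlt
    push Not at hlt
    have h1 := hc'low (U z - T z) hlt (hVr z hzS).le
    have h2 := hR5 (T z) (hρ' z hz hzS) (U z - T z) (by
      calc ‖U z - T z‖ = ‖u₀ + (U z - T z - u₀)‖ := by ring_nf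
        _ ≤ ‖u₀‖ + ‖U z - T z - u₀‖ := norm_add_le _ _
        _ ≤ _ := by linarith [hVr z hzS])
    have e : T z + (U z - T z) = U z := by ring
    rw [e, hyyT z hzS, norm_sub_rev] at h2
    linarith
  refine ⟨T, U, ρ, max (C₁ + 4 * Real.pi) (C₁ + 2), u₀.re, hu₀n, hTc.mono hρS, hUc.mono hρS,
    ?_, ?_, ?_, ?_⟩
  · intro z hz
    refine ⟨hYY z (hρS z hz), hTU z, ?_⟩
    rw [hPhi z (hρS z hz)]
    rfl
  · intro z hz hz1 hz2
    refine ⟨(hR1c.trans_lt (hTim z (hρS z hz))).le, ?_, ?_⟩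
    · have h1 := hTre z hz
      rw [abs_of_nonneg hz1] at h1
      have h2 : |(T z).re| ≤ Real.pi * |(T z).re| := by
        nlinarith [abs_nonneg (T z).re]
      refine le_trans ?_ (le_max_left _ _)
      linarith
    · have h1 := hTim2 z hz
      have h0 : 0 < (T z).im := (hTU z).1
      have h2 : (T z).im ≤ Real.pi * (T z).im := by nlinarith
      have h3 : (C₁ + 2) * (1 + |z.re|) ≤
          max (C₁ + 4 * Real.pi) (C₁ + 2) * (1 + |z.re|) :=
        mul_le_mul_of_nonneg_right (le_max_right _ _) (by positivity)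
      refine le_trans ?_ h3
      have h4 : 0 ≤ C₁ * |z.re| := mul_nonneg hC₁0 (abs_nonneg _)
      linarith [abs_nonneg z.re]
  · intro R
    obtain ⟨ρ', hρ'⟩ := hTinf R
    exact ⟨ρ', fun z hz hzρ _ _ => (hρ' z hz (hρS z hzρ)).le⟩
  · intro ε hε
    -- a bound for everything
    set C₂ : ℝ := ‖u₀‖ + r₀ with hC₂
    have hC₂0 : 0 < C₂ := by positivity
    set C₃ : ℝ := C₁ + 4 * Real.pi with hC₃
    have hC₃0 : 0 < C₃ := by positivity
    obtain ⟨ρa, hρa⟩ := hVlim (ε / 2) (by positivity)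
    obtain ⟨ρb, hρb⟩ := hTinf (max (C₂ / ε) (2 * C₂ * C₃ / ε))
    refine ⟨min ρa ρb, fun z hz hzρ hz1 hz2 => ?_⟩
    have hzS := hρS z hzρ
    have hVn : ‖U z - T z‖ ≤ C₂ := by
      calc ‖U z - T z‖ = ‖u₀ + (U z - T z - u₀)‖ := by ring_nf
        _ ≤ ‖u₀‖ + ‖U z - T z - u₀‖ := norm_add_le _ _
        _ ≤ _ := by rw [hC₂]; linarith [hVr z hzS]
    have hVim : |(U z).im - (T z).im| ≤ C₂ := by
      have := (Complex.abs_im_le_norm (U z - T z)).trans hVn
      rwa [Complex.sub_im] at this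
    have hVre : |(U z).re - (T z).re - u₀.re| < ε / 2 := by
      have := (Complex.abs_re_le_norm (U z - T z - u₀)).trans_lt
        (hρa z (hz.trans_le (min_le_left _ _)) hzS)
      rwa [Complex.sub_re, Complex.sub_re] at this
    have hTb := hρb z (hz.trans_le (min_le_right _ _)) hzS
    have h0 : 0 < (T z).im := (hTU z).1
    have hq : (U z).im / (T z).im - 1 = ((U z).im - (T z).im) / (T z).im := by
      field_simp
    have h1 : C₂ / ε < (T z).im := (le_max_left _ _).trans_lt hTb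
    have h2 : 2 * C₂ * C₃ / ε < (T z).im := (le_max_right _ _).trans_lt hTb
    rw [div_lt_iff₀ hε] at h1 h2
    constructor
    · rw [hq, abs_div, abs_of_pos h0, div_lt_iff₀ h0]
      linarith
    · have h3 : (U z).re - (U z).im / (T z).im * (T z).re - u₀.re =
          ((U z).re - (T z).re - u₀.re) - ((U z).im - (T z).im) / (T z).im * (T z).re := by
        field_simp
        ring
      rw [h3]
      have h4 : |((U z).im - (T z).im) / (T z).im * (T z).re| ≤ ε / 2 := by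
        rw [abs_mul, abs_div, abs_of_pos h0, div_mul_eq_mul_div, div_le_iff₀ h0]
        have h5 := hTre z hzρ
        rw [abs_of_nonneg hz1] at h5
        have h6 : |(T z).re| ≤ C₃ := by
          have : |(T z).re| ≤ Real.pi * |(T z).re| := by nlinarith [abs_nonneg (T z).re]
          rw [hC₃]; linarith
        have h7 : |(U z).im - (T z).im| * |(T z).re| ≤ C₂ * C₃ :=
          mul_le_mul hVim h6 (abs_nonneg _) hC₂0.le
        linarith
      calc |((U z).re - (T z).re - u₀.re) - ((U z).im - (T z).im) / (T z).im * (T z).re| ≤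
          |(U z).re - (T z).re - u₀.re| + |((U z).im - (T z).im) / (T z).im * (T z).re| :=
            abs_sub _ _
        _ < ε := by linarith

end Pool.Agent.H63.TC
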