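import Pool.Agent.H63.TC.Tools

/-!
# Project TC: module ZZZ (the `u`-component tends to zero at the puncture `u = 0`)
-/

open Complex Metric Set Filter Topology

namespace Pool.Agent.H63.TC

lemma zzz_decay (a b : ℝ) (ha : 0 ≤ a) (hb : 0 ≤ b) {ε : ℝ} (hε : 0 < ε) :
    ∃ ρ : ℝ, ∀ x < ρ, Real.exp x * (a * (1 + |x|) ^ 3 + b) ≤ ε := by
  have h1 := Real.tendsto_pow_mul_exp_neg_atTop_nhds_zero 3
  have h2 := Real.tendsto_pow_mul_exp_neg_atTop_nhds_zero 0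
  have h3 : Tendsto (fun y : ℝ => 8 * a * (y ^ 3 * Real.exp (-y)) + b * (y ^ 0 * Real.exp (-y)))
      atTop (𝓝 (8 * a * 0 + b * 0)) := (h1.const_mul _).add (h2.const_mul _)
  have h4 : ∀ᶠ y : ℝ in atTop,
      8 * a * (y ^ 3 * Real.exp (-y)) + b * (y ^ 0 * Real.exp (-y)) < ε :=
    h3.eventually_lt_const (by simpa using hε)
  obtain ⟨Y, hY⟩ := Filter.eventually_atTop.1 (h4.and (Filter.eventually_ge_atTop 1))
  refine ⟨-Y, fun x hx => ?_⟩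
  obtain ⟨h5, h6⟩ := hY (-x) (by linarith)
  have hx0 : x ≤ 0 := by linarith
  rw [neg_neg, pow_zero, one_mul] at h5
  rw [abs_of_nonpos hx0]
  have h7 : (1 + -x) ^ 3 ≤ 8 * (-x) ^ 3 := by
    have : (8 : ℝ) * (-x) ^ 3 = (2 * (-x)) ^ 3 := by ring
    rw [this]
    exact pow_le_pow_left₀ (by linarith) (by linarith) 3
  have h8 : a * (1 + -x) ^ 3 ≤ a * (8 * (-x) ^ 3) := mul_le_mul_of_nonneg_left h7 ha
  have h9 : Real.exp x * (a * (1 + -x) ^ 3 + b) ≤ Real.exp x * (a * (8 * (-x) ^ 3) + b) :=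
    mul_le_mul_of_nonneg_left (by linarith) (Real.exp_pos x).le
  have h10 : Real.exp x * (a * (8 * (-x) ^ 3) + b) =
      8 * a * ((-x) ^ 3 * Real.exp x) + b * Real.exp x := by ring
  linarith

/-- ZZZ: the `u`-component tends to zero at the puncture `u = 0`. -/
theorem zzz (hh : HlfStmt) (hz1 : Z1Stmt) (hz2 : Z2Stmt) (hwex : WexStmt) (hunq : UnqStmt)
    (hcu3 : Cu3Stmt) (hpol : PolStmt) (hswp : SwpStmt) (hphd : PhdStmt) : ZzzStmt := by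
  intro V _ _ A W τ₀ J ρ M S hτ₀ hlam hJ hWJ hS hSb hM ε hε
  obtain ⟨T, U, ρ₁, C, b, hb, hTc, hUc, hTU, hstrip, hTinf, hleaf⟩ := hz1 τ₀ hτ₀ hlam
  set ρm := min ρ ρ₁ with hρm
  have hm1 : ∀ z : ℂ, z.re < ρm → z.re < ρ := fun z hz => hz.trans_le (min_le_left _ _)
  have hm2 : ∀ z : ℂ, z.re < ρm → z.re < ρ₁ := fun z hz => hz.trans_le (min_le_right _ _)
  have hJ' : ContinuousOn J {z : ℂ | z.re < ρm} := hJ.mono hm1
  -- the second structure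
  obtain ⟨zb, hzb⟩ : ∃ z : ℂ, z.re < ρm := ⟨((ρm - 1 : ℝ) : ℂ), by simp⟩
  have hE : ∀ z : ℂ, z.re < ρm → Phi (T z, U z) = A.swap.E (J z) := by
    intro z hz
    rw [(hTU z (hm2 z hz)).2.2, A.swap_E, ← W.Phi_W, hWJ z (hm1 z hz)]
  obtain ⟨W₃, hW₃⟩ := hwex V A.swap (J zb) (T zb, U zb) (hTU zb (hm2 zb hzb)).2.1 (hE zb hzb)
  have hW₃J : ∀ z ∈ {z : ℂ | z.re < ρm}, W₃.W (J z) = (T z, U z) := by
    refine hunq ℂ {z : ℂ | z.re < ρm} (fun z => W₃.W (J z)) (fun z => (T z, U z)) zb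
      (convex_halfSpace_re_lt ρm).isPreconnected (W₃.cont.comp_continuousOn hJ')
      ((hTc.mono hm2).prodMk (hUc.mono hm2)) (fun z _ => W₃.mem _)
      (fun z hz => (hTU z (hm2 z hz)).2.1) ?_ hzb hW₃
    intro z hz
    rw [W₃.Phi_W, hE z hz]
  -- growth of the second component
  obtain ⟨C', ρ', hC'⟩ := hz2 V A.swap W₃ J ρm C b ((fun (ξ : V → ℂ × ℂ) p => (ξ p).swap) '' S)
    hJ' hb (by
      intro z hz h1 h2
      rw [hW₃J z hz]
      have := hstrip z (hm2 z hz) h1 h2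
      exact ⟨this.1, this.2.1⟩) (by
      intro η hη
      obtain ⟨ρ'', h⟩ := hleaf η hη
      refine ⟨ρ'', fun z hz hzm h1 h2 => ?_⟩
      rw [hW₃J z hzm]
      exact h z hz (hm2 z hzm) h1 h2) (by
      rintro _ ⟨ξ, hξ, rfl⟩
      exact hswp V A ξ (hS ξ hξ)) (by
      intro K hK
      obtain ⟨M', hM'⟩ := hSb K hK
      refine ⟨M', ?_⟩
      rintro _ ⟨ξ, hξ, rfl⟩ p hp
      simp only
      rw [norm_swap]
      exact hM' ξ hξ p hp)
  obtain ⟨R, C₃, hC₃⟩ := hcu3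
  obtain ⟨ρR, hρR⟩ := hTinf (R + 1)
  obtain ⟨hp1, hp2, r, hr, C₅, hC₅⟩ := hpol τ₀ hτ₀
  have hD : e2 τ₀ - e1 τ₀ ≠ 0 := sub_ne_zero.2 (hh τ₀ hτ₀).1.symm
  set κ := ‖-8 / (e2 τ₀ - e1 τ₀)‖ with hκ
  have hκ0 : 0 < κ := norm_pos_iff.2 (div_ne_zero (by norm_num) hD)
  set C₄ := ‖4 / (e2 τ₀ - e1 τ₀)‖ + 1 with hC₄
  have hC₄0 : 0 < C₄ := by positivity
  have hq1 : ∀ᶠ u in 𝓝[≠] (0 : ℂ), ‖u ^ 2 * yy τ₀ u‖ < C₄ :=
    hp1.norm.eventually_lt_const (by rw [hC₄]; linarith)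
  have hq2 : ∀ᶠ u in 𝓝[≠] (0 : ℂ), κ / 2 < ‖u ^ 3 * yu (τ₀, u)‖ :=
    hp2.norm.eventually_const_lt (by linarith)
  have hq := hq1.and hq2
  rw [eventually_nhdsWithin_iff] at hq
  obtain ⟨δ, hδ, hδ'⟩ := Metric.eventually_nhds_iff.1 hq
  set r' := min δ r with hr'
  have hr'0 : 0 < r' := lt_min hδ hr
  -- the final estimate
  set a := |C'| * |C₃| * C₄ * |C| ^ 3 * (2 / κ) with ha
  set b' := |C₅| * |M| * (2 / κ) with hb'
  have ha0 : 0 ≤ a := by positivity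
  have hb'0 : 0 ≤ b' := by positivity
  obtain ⟨ρd, hρd⟩ := zzz_decay a b' ha0 hb'0 hε
  refine ⟨min (min (min ρ' ρR) (min (Real.log r') ρd)) ρ₁, fun ξ hξ z hz hzρ hz1 hz2 => ?_⟩
  have hzρ₁ : z.re < ρ₁ := hz.trans_le (min_le_right _ _)
  have hz' := hz.trans_le (min_le_left _ _)
  have hza : z.re < ρ' := hz'.trans_le ((min_le_left _ _).trans (min_le_left _ _))
  have hzb' : z.re < ρR := hz'.trans_le ((min_le_left _ _).trans (min_le_right _ _))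
  have hzc : z.re < Real.log r' := hz'.trans_le ((min_le_right _ _).trans (min_le_left _ _))
  have hzd : z.re < ρd := hz'.trans_le ((min_le_right _ _).trans (min_le_right _ _))
  have hzm : z.re < ρm := lt_min hzρ hzρ₁
  set u := exp z with hu
  have hu0 : u ≠ 0 := exp_ne_zero z
  have hun : ‖u‖ = Real.exp z.re := Complex.norm_exp z
  have hupos : 0 < ‖u‖ := norm_pos_iff.2 hu0
  have hur : ‖u‖ < r' := by
    rw [hun, ← Real.exp_log hr'0]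
    exact Real.exp_lt_exp.2 hzc
  obtain ⟨k1, k2⟩ := hδ' (show dist u 0 < δ by
    rw [dist_zero_right]; exact hur.trans_le (min_le_left _ _)) hu0
  have k3 := hC₅ u hu0 (hur.trans_le (min_le_right _ _))
  rw [norm_mul, norm_pow] at k1 k2 k3
  have hWz := hWJ z hzρ
  have hW₃z := hW₃J z hzm
  obtain ⟨hs1, hs2, hs3⟩ := hstrip z hzρ₁ hz1 hz2
  have hTR : R < (T z).im := by
    have := hρR z hzb' hzρ₁ hz1 hz2
    linarith
  have hphdT := hphd (T z, U z) (hTU z hzρ₁).2.1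
  have hlam1 : lam (T z) = yy τ₀ u := by
    have := congrArg Prod.fst (hTU z hzρ₁).2.2
    exact this
  have hT3 : ‖W₃.hh (fun p => (ξ p).swap) (J z)‖ ≤ |C'| * (T z).im ^ 3 := by
    have h1 := hC' (fun p => (ξ p).swap) ⟨ξ, hξ, rfl⟩ z hza hzm hz1 hz2
    rw [hW₃z] at h1
    refine h1.trans (mul_le_mul_of_nonneg_right (le_abs_self C') ?_)
    have : 0 ≤ (T z).im := by linarith
    positivity
  have hξ2 : (ξ (J z)).2 = W₃.hh (fun p => (ξ p).swap) (J z) * deriv lam (T z) := by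
    unfold Ell.hh
    rw [hW₃z]
    simp only [Prod.fst_swap]
    rw [div_mul_cancel₀ _ hphdT.2.1]
  have hdl : ‖deriv lam (T z)‖ ≤ |C₃| * ‖yy τ₀ u‖ := by
    have h1 := hC₃ (T z) hTR
    rw [hlam1] at h1
    exact h1.trans (mul_le_mul_of_nonneg_right (le_abs_self C₃) (norm_nonneg _))
  have hTim0 : 0 ≤ (T z).im := by linarith
  have hTC : (T z).im ^ 3 ≤ |C| ^ 3 * (1 + |z.re|) ^ 3 := by
    rw [← mul_pow]
    refine pow_le_pow_left₀ hTim0 ?_ 3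
    exact hs3.trans (mul_le_mul_of_nonneg_right (le_abs_self C) (by positivity))
  -- the second component
  have hyn : ‖yy τ₀ u‖ ≤ C₄ / ‖u‖ ^ 2 := by
    rw [le_div_iff₀ (by positivity)]
    linarith
  have hξn : ‖(ξ (J z)).2‖ ≤ |C'| * |C₃| * C₄ * |C| ^ 3 * (1 + |z.re|) ^ 3 / ‖u‖ ^ 2 := by
    rw [hξ2, norm_mul]
    calc ‖W₃.hh (fun p => (ξ p).swap) (J z)‖ * ‖deriv lam (T z)‖ ≤
        (|C'| * (T z).im ^ 3) * (|C₃| * ‖yy τ₀ u‖) :=
          mul_le_mul hT3 hdl (norm_nonneg _) (by positivity)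
      _ ≤ (|C'| * (|C| ^ 3 * (1 + |z.re|) ^ 3)) * (|C₃| * (C₄ / ‖u‖ ^ 2)) := by
          refine mul_le_mul (mul_le_mul_of_nonneg_left hTC (abs_nonneg _))
            (mul_le_mul_of_nonneg_left hyn (abs_nonneg _)) (by positivity) (by positivity)
      _ = _ := by ring
  have hytn : ‖yt (τ₀, u)‖ * ‖W.hh ξ (J z)‖ ≤ |C₅| * |M| / ‖u‖ ^ 2 := by
    have h1 : ‖yt (τ₀, u)‖ ≤ |C₅| / ‖u‖ ^ 2 := by
      rw [le_div_iff₀ (by positivity)]
      linarith [le_abs_self C₅]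
    have h2 : ‖W.hh ξ (J z)‖ ≤ |M| := (hM ξ hξ z hzρ).trans (le_abs_self M)
    calc ‖yt (τ₀, u)‖ * ‖W.hh ξ (J z)‖ ≤ (|C₅| / ‖u‖ ^ 2) * |M| :=
          mul_le_mul h1 h2 (norm_nonneg _) (by positivity)
      _ = _ := by ring
  have hyun : κ / 2 / ‖u‖ ^ 3 ≤ ‖yu (τ₀, u)‖ := by
    rw [div_le_iff₀ (by positivity)]
    linarith
  have hkk : W.kk ξ (J z) = ((ξ (J z)).2 - yt (τ₀, u) * W.hh ξ (J z)) / yu (τ₀, u) := by
    unfold Ell.kk
    rw [hWz]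
  rw [hkk, norm_div]
  have hden : 0 < κ / 2 / ‖u‖ ^ 3 := by positivity
  calc ‖(ξ (J z)).2 - yt (τ₀, u) * W.hh ξ (J z)‖ / ‖yu (τ₀, u)‖ ≤
      (|C'| * |C₃| * C₄ * |C| ^ 3 * (1 + |z.re|) ^ 3 / ‖u‖ ^ 2 + |C₅| * |M| / ‖u‖ ^ 2) /
        (κ / 2 / ‖u‖ ^ 3) := by
        refine div_le_div₀ (by positivity) ?_ hden hyun
        refine (norm_sub_le _ _).trans (add_le_add hξn ?_)
        rw [norm_mul]; exact hytn
    _ = Real.exp z.re * (a * (1 + |z.re|) ^ 3 + b') := by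
        rw [← hun, ha, hb']
        field_simp
    _ ≤ ε := hρd z.re hzd

end Pool.Agent.H63.TC
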