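import Pool.Agent.H79.TC.Osg

/-!
# Project TC: module C2D
-/

open Complex Metric Set Filter Topology

namespace Pool.Agent.H63.TC

/-- C2D: holomorphic functions of two variables are twice differentiable. -/
theorem c2d : C2dStmt := by
  intro f U hU hf
  refine ⟨osg_fst hU hf, osg_snd hU hf, fun q hq => (osg_symm hU hf hq).symm,
    fun q hq => osg_strict hU hf hq, fun q hq v => ?_⟩
  rw [osg_fderiv_eq (hf.differentiableAt (hU.mem_nhds hq)) v, smul_eq_mul, smul_eq_mul,
    mul_comm v.1, mul_comm v.2]

end Pool.Agent.H63.TC
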