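import Pool.Agent.H63.TC.Tools

/-!
# Project TC: module Z1, auxiliary lemmas
-/

open Complex Metric Set Filter Topology

namespace Pool.Agent.H63.TC

lemma z1_cos_im (w : ℂ) : (Complex.cos w).im = -(Real.sin w.re * Real.sinh w.im) := by
  rw [Complex.cos_eq]
  simp only [← Complex.ofReal_cos, ← Complex.ofReal_sin, ← Complex.ofReal_cosh,
    ← Complex.ofReal_sinh, Complex.sub_im, Complex.mul_im, Complex.mul_re, Complex.ofReal_re,
    Complex.ofReal_im, Complex.I_re, Complex.I_im]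
  ring

lemma z1_cos_re (w : ℂ) : (Complex.cos w).re = Real.cos w.re * Real.cosh w.im := by
  rw [Complex.cos_eq]
  simp only [← Complex.ofReal_cos, ← Complex.ofReal_sin, ← Complex.ofReal_cosh,
    ← Complex.ofReal_sinh, Complex.sub_re, Complex.mul_im, Complex.mul_re, Complex.ofReal_re,
    Complex.ofReal_im, Complex.I_re, Complex.I_im]
  ring

/-- the point `u₀` -/
lemma z1_u0 {x₀ : ℂ} (h : x₀.im ≠ 0 ∨ (0 < x₀.re ∧ x₀.re < 1)) :
    ∃ u₀ : ℂ, sin (Real.pi * u₀ / 2) ^ 2 = x₀ ∧ ∀ n : ℤ, u₀.re ≠ n := by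
  obtain ⟨w, hw⟩ := Complex.cos_surjective (1 - 2 * x₀)
  have hpi : (Real.pi : ℂ) ≠ 0 := by exact_mod_cast Real.pi_ne_zero
  refine ⟨w / Real.pi, ?_, ?_⟩
  · have e : (Real.pi : ℂ) * (w / Real.pi) / 2 = w / 2 := by field_simp
    rw [e]
    have h1 := Complex.cos_two_mul (w / 2)
    have e2 : 2 * (w / 2) = w := by ring
    rw [e2, hw] at h1
    have h2 := Complex.sin_sq_add_cos_sq (w / 2)
    linear_combination h2 + h1 / 2
  · intro n hn
    have hre : w.re = n * Real.pi := by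
      have h1 : (w / (Real.pi : ℂ)).re = w.re / Real.pi := Complex.div_ofReal_re _ _
      rw [h1, div_eq_iff Real.pi_ne_zero] at hn
      exact hn
    have h1 := z1_cos_im w
    have h2 := z1_cos_re w
    rw [hw, hre, Real.sin_int_mul_pi] at h1
    rw [hw, hre] at h2
    simp only [Complex.sub_im, Complex.one_im, Complex.mul_im, Complex.re_ofNat, Complex.im_ofNat,
      zero_mul, add_zero, neg_zero] at h1
    simp only [Complex.sub_re, Complex.one_re, Complex.mul_re, Complex.re_ofNat, Complex.im_ofNat,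
      zero_mul, sub_zero] at h2
    have h3 : x₀.im = 0 := by linarith
    have h4 := Real.sin_sq_add_cos_sq (n * Real.pi)
    rw [Real.sin_int_mul_pi] at h4
    have h5 := Real.one_le_cosh w.im
    rcases h with h | ⟨h6, h7⟩
    · exact h h3
    · have h8 : (1 - 2 * x₀.re) ^ 2 = Real.cosh w.im ^ 2 := by
        rw [h2, mul_pow]
        linear_combination (Real.cosh w.im ^ 2) * h4
      nlinarith

lemma z1_hasDeriv (u : ℂ) : HasDerivAt (fun v : ℂ => sin (Real.pi * v / 2) ^ 2)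
    (2 * sin (Real.pi * u / 2) * (cos (Real.pi * u / 2) * (Real.pi / 2))) u := by
  have h1 : HasDerivAt (fun v : ℂ => (Real.pi : ℂ) * v / 2) (Real.pi / 2) u := by
    have := ((hasDerivAt_id u).const_mul (Real.pi : ℂ)).div_const 2
    simpa using this
  have h2 := h1.csin.fun_pow 2
  simpa using h2

/-- the radius `r₀` -/
lemma z1_r0 {u₀ : ℂ} (hn : ∀ n : ℤ, u₀.re ≠ n) : ∃ r₀ > 0,
    (∀ v : ℂ, v ≠ u₀ → ‖v - u₀‖ ≤ r₀ →
      sin (Real.pi * v / 2) ^ 2 ≠ sin (Real.pi * u₀ / 2) ^ 2) ∧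
    (∀ v : ℂ, ‖v - u₀‖ ≤ r₀ → ∀ n : ℤ, v.re ≠ n) := by
  have hpi : (Real.pi : ℂ) ≠ 0 := by exact_mod_cast Real.pi_ne_zero
  have h1 : sin (Real.pi * u₀ / 2) ≠ 0 := by
    rw [Ne, Complex.sin_eq_zero_iff]
    rintro ⟨k, hk⟩
    have : u₀ = ((2 * k : ℤ) : ℂ) := by
      push_cast
      field_simp at hk
      linear_combination hk
    apply hn (2 * k)
    rw [this, Complex.intCast_re]
  have h2 : cos (Real.pi * u₀ / 2) ≠ 0 := by
    rw [Ne, Complex.cos_eq_zero_iff]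
    rintro ⟨k, hk⟩
    have : u₀ = ((2 * k + 1 : ℤ) : ℂ) := by
      push_cast
      field_simp at hk
      linear_combination hk
    apply hn (2 * k + 1)
    rw [this, Complex.intCast_re]
  have h3 : ∀ᶠ v in 𝓝[≠] u₀, sin (Real.pi * v / 2) ^ 2 ≠ sin (Real.pi * u₀ / 2) ^ 2 :=
    (z1_hasDeriv u₀).eventually_ne
      (mul_ne_zero (mul_ne_zero two_ne_zero h1) (mul_ne_zero h2 (div_ne_zero hpi two_ne_zero)))
  rw [eventually_nhdsWithin_iff] at h3
  have h4 : ∀ᶠ v : ℂ in 𝓝 u₀, ∀ n : ℤ, v.re ≠ n := by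
    have h5 : IsOpen {v : ℂ | v.re ∈ {x : ℝ | ∃ m : ℤ, x = m}ᶜ} :=
      isClosed_int.isOpen_compl.preimage Complex.continuous_re
    have h6 : u₀ ∈ {v : ℂ | v.re ∈ {x : ℝ | ∃ m : ℤ, x = m}ᶜ} := by
      rintro ⟨m, hm⟩
      exact hn m hm
    filter_upwards [h5.mem_nhds h6] with v hv n h
    exact hv ⟨n, h⟩
  obtain ⟨r, hr, h⟩ := Metric.nhds_basis_closedBall.eventually_iff.1 (h3.and h4)
  refine ⟨r, hr, fun v hv hvr => ?_, fun v hvr => ?_⟩
  · exact (h (show v ∈ closedBall u₀ r by rwa [mem_closedBall, dist_eq_norm])).1 hv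
  · exact (h (show v ∈ closedBall u₀ r by rwa [mem_closedBall, dist_eq_norm])).2

/-- lower bound on annuli -/
lemma z1_low {u₀ x₀ : ℂ} {r₀ : ℝ} (h0 : ∀ v : ℂ, v ≠ u₀ → ‖v - u₀‖ ≤ r₀ →
    sin (Real.pi * v / 2) ^ 2 ≠ x₀) {r : ℝ} (hr : 0 < r) :
    ∃ c > 0, ∀ v : ℂ, r ≤ ‖v - u₀‖ → ‖v - u₀‖ ≤ r₀ → c ≤ ‖sin (Real.pi * v / 2) ^ 2 - x₀‖ := by
  set K : Set ℂ := closedBall u₀ r₀ ∩ (ball u₀ r)ᶜ with hK
  have hKc : IsCompact K := (isCompact_closedBall u₀ r₀).inter_right isOpen_ball.isClosed_compl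
  have hcont : ContinuousOn (fun v : ℂ => ‖sin (Real.pi * v / 2) ^ 2 - x₀‖) K := by
    apply Continuous.continuousOn
    fun_prop
  have hmem : ∀ v : ℂ, r ≤ ‖v - u₀‖ → ‖v - u₀‖ ≤ r₀ → v ∈ K := by
    intro v h1 h2
    refine ⟨by rwa [mem_closedBall, dist_eq_norm], ?_⟩
    rw [mem_compl_iff, mem_ball, dist_eq_norm]
    exact not_lt.2 h1
  rcases K.eq_empty_or_nonempty with hKe | hKn
  · refine ⟨1, one_pos, fun v h1 h2 => ?_⟩
    have := hmem v h1 h2
    rw [hKe] at this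
    exact this.elim
  · obtain ⟨v₁, hv₁, hmin⟩ := hKc.exists_isMinOn hKn hcont
    refine ⟨‖sin (Real.pi * v₁ / 2) ^ 2 - x₀‖, ?_, fun v h1 h2 => hmin (hmem v h1 h2)⟩
    rw [gt_iff_lt, norm_pos_iff, sub_ne_zero]
    refine h0 v₁ ?_ ?_
    · rintro rfl
      exact hv₁.2 (mem_ball_self hr)
    · have := hv₁.1
      rwa [mem_closedBall, dist_eq_norm] at this

/-- a continuous logarithm of a function close to a constant is bounded -/
lemma z1_log {S : Set ℂ} (hS : IsPreconnected S) {F : ℂ → ℂ} (hF : ContinuousOn F S) {μ : ℂ}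
    (hμ : μ ≠ 0) (h : ∀ z ∈ S, ‖exp (F z) - μ‖ < ‖μ‖ / 2) : ∃ C : ℝ, ∀ z ∈ S, ‖F z‖ ≤ C := by
  rcases S.eq_empty_or_nonempty with hSe | ⟨z₁, hz₁⟩
  · exact ⟨0, fun z hz => by rw [hSe] at hz; exact hz.elim⟩
  set ℓ := Complex.log μ with hℓ
  have hexpℓ : exp ℓ = μ := Complex.exp_log hμ
  set G : ℂ → ℂ := fun z => F z - ℓ with hG
  have hGc : ContinuousOn G S := hF.sub continuousOn_const
  have h1 : ∀ z ∈ S, ‖exp (G z) - 1‖ < 1 / 2 := by
    intro z hz
    have h2 := h z hz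
    have h3 : exp (F z) = exp (G z) * μ := by
      rw [← hexpℓ, ← Complex.exp_add]
      congr 1
      simp [hG]
    have h4 : exp (F z) - μ = (exp (G z) - 1) * μ := by rw [h3]; ring
    rw [h4, norm_mul] at h2
    have h5 : 0 < ‖μ‖ := norm_pos_iff.2 hμ
    by_contra h6
    push Not at h6
    nlinarith
  have hre : ∀ z ∈ S, |(G z).re| ≤ 1 := by
    intro z hz
    have h2 := h1 z hz
    have h3 : ‖exp (G z)‖ = Real.exp (G z).re := Complex.norm_exp _
    have h4 : ‖exp (G z)‖ ≤ 3 / 2 := by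
      calc ‖exp (G z)‖ = ‖(exp (G z) - 1) + 1‖ := by ring_nf
        _ ≤ ‖exp (G z) - 1‖ + ‖(1 : ℂ)‖ := norm_add_le _ _
        _ ≤ 3 / 2 := by rw [norm_one]; linarith
    have h5 : 1 / 2 ≤ ‖exp (G z)‖ := by
      have : ‖(1 : ℂ)‖ ≤ ‖exp (G z)‖ + ‖exp (G z) - 1‖ := by
        calc ‖(1 : ℂ)‖ = ‖exp (G z) - (exp (G z) - 1)‖ := by ring_nf
          _ ≤ _ := norm_sub_le _ _
      rw [norm_one] at this
      linarith
    rw [h3] at h4 h5
    have he := Real.exp_one_gt_d9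
    have h6 : Real.exp (-1) < 1 / 2 := by
      rw [Real.exp_neg]
      rw [inv_lt_comm₀ (Real.exp_pos 1) (by norm_num)]
      norm_num
      linarith
    rw [abs_le]
    constructor
    · by_contra h7
      push Not at h7
      have := Real.exp_lt_exp.2 h7
      linarith
    · by_contra h7
      push Not at h7
      have := Real.exp_lt_exp.2 h7
      linarith
  have hcos : ∀ z ∈ S, 0 < Real.cos (G z).im := by
    intro z hz
    have h2 := h1 z hz
    have h3 : (exp (G z)).re = Real.exp (G z).re * Real.cos (G z).im := Complex.exp_re _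
    have h4 : |(exp (G z) - 1).re| ≤ ‖exp (G z) - 1‖ := Complex.abs_re_le_norm _
    rw [Complex.sub_re, Complex.one_re, h3] at h4
    have h5 := abs_le.1 (h4.trans h2.le)
    have h6 : 0 < Real.exp (G z).re * Real.cos (G z).im := by linarith [h5.1]
    exact (pos_iff_pos_of_mul_pos h6).1 (Real.exp_pos _)
  have himc : ContinuousOn (fun z => (G z).im) S := Complex.continuous_im.comp_continuousOn hGc
  have him : ∀ z ∈ S, ∀ w ∈ S, (G z).im < (G w).im + Real.pi := by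
    intro z hz w hw
    by_contra h2
    push Not at h2
    have h3 := hS.intermediate_value hw hz himc
    have h4 : (G w).im + Real.pi ∈ Icc (G w).im (G z).im := ⟨by linarith [Real.pi_pos], h2⟩
    obtain ⟨x, hx, hx2⟩ := h3 h4
    have h5 := hcos x hx
    simp only at hx2
    rw [hx2, Real.cos_add_pi] at h5
    linarith [hcos w hw]
  refine ⟨‖ℓ‖ + (1 + (|(G z₁).im| + Real.pi)), fun z hz => ?_⟩
  have h2 : F z = ℓ + G z := by simp [hG]
  rw [h2]
  refine (norm_add_le _ _).trans (add_le_add le_rfl ?_)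
  refine (Complex.norm_le_abs_re_add_abs_im _).trans (add_le_add (hre z hz) ?_)
  have h3 := him z hz z₁ hz₁
  have h4 := him z₁ hz₁ z hz
  rw [abs_le]
  have h5 := abs_le.1 (le_refl |(G z₁).im|)
  constructor <;> linarith [h5.1, h5.2]

end Pool.Agent.H63.TC
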